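import Mathlib

/-!
# Project UM (MP_a56223_co): definitions

`y = -x`.  All power series are in the variable `y`.
-/

set_option autoImplicit false

namespace Pool.Agent.H37.UM

open PowerSeries Finset

/-- the odd part of `m` -/
def op (m : ℕ) : ℕ := m / 2 ^ (padicValNat 2 m)

/-- the number of `a ≥ 0` with `2 ^ a * i ≤ n` (zero for `i = 0`) -/
def cc (n i : ℕ) : ℕ := if i = 0 ∨ n < i then 0 else Nat.log 2 (n / i) + 1

/-- `1 + x ^ i` with `x = -y` -/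
noncomputable def w (i : ℕ) : ℤ⟦X⟧ := 1 + (-X) ^ i

/-- the inverse of `w i` (for `1 ≤ i`) -/
noncomputable def g (i : ℕ) : ℤ⟦X⟧ := PowerSeries.invOfUnit (w i) 1

/-- the sum of `∏ 1 / (1 + x ^ i)` over the partitions of `n` with all parts in `[a, b]` -/
noncomputable def hr (a b n : ℕ) : ℤ⟦X⟧ :=
  ∑ p ∈ (univ : Finset n.Partition).filter (fun p => ∀ j ∈ p.parts, a ≤ j ∧ j ≤ b),
    (p.parts.map g).prod

/-- the sum of `∏ 1 / (1 + x ^ i)` over the partitions of `n` -/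
noncomputable def h (n : ℕ) : ℤ⟦X⟧ := ∑ p : n.Partition, (p.parts.map g).prod

/-- the same sum over the partitions of `n` without parts `1` -/
noncomputable def h2 (n : ℕ) : ℤ⟦X⟧ :=
  ∑ p ∈ (univ : Finset n.Partition).filter (fun p => 1 ∉ p.parts), (p.parts.map g).prod

/-- the reduced denominator -/
noncomputable def den (n : ℕ) : ℤ⟦X⟧ := ∏ i ∈ Icc 1 n, w i ^ cc n i

/-- the reduced numerator, as a power series in `y` -/
noncomputable def P (n : ℕ) : ℤ⟦X⟧ := den n * h n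

/-- the part of `P n` of the partitions without parts `1` -/
noncomputable def Q (n : ℕ) : ℤ⟦X⟧ := den n * h2 n

/-- `[n] = 1 + y + ... + y ^ (n - 1)` -/
noncomputable def iv (n : ℕ) : ℤ⟦X⟧ := ∑ i ∈ range n, X ^ i

/-- `F m = (1 - y ^ (2 m)) / ((1 - y) (1 + y ^ (op m)))` -/
noncomputable def F (m : ℕ) : ℤ⟦X⟧ :=
  iv (op m) * ∏ a ∈ range (padicValNat 2 m), (1 + X ^ (2 ^ (a + 1) * op m))

/-- `∏ F m` over `j < m ≤ n` -/
noncomputable def U (j n : ℕ) : ℤ⟦X⟧ := ∏ m ∈ Ioc j n, F m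

/-- `∏ F m` over `1 ≤ m ≤ n`: the summand of `P n` of the partition `1 ^ n` -/
noncomputable def T (n : ℕ) : ℤ⟦X⟧ := U 0 n

/-- first differences of the coefficients -/
noncomputable def df (f : ℤ⟦X⟧) (k : ℕ) : ℤ := coeff k ((1 - X) * f)

/-- the degree of `U j n` -/
def dU (j n : ℕ) : ℕ := ∑ m ∈ Ioc j n, (2 * m - op m - 1)

/-- the degree of `P n` and `T n` -/
def dg (n : ℕ) : ℕ := dU 0 n

/-- a palindromic polynomial of degree (at most) `D` -/
structure Sym (D : ℕ) (f : ℤ⟦X⟧) : Prop where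
  top : ∀ k, D < k → coeff k f = 0
  sym : ∀ k ≤ D, coeff (D - k) f = coeff k f

/-- symmetric and unimodal with nonnegative coefficients -/
structure SU (D : ℕ) (f : ℤ⟦X⟧) : Prop extends Sym D f where
  mono : ∀ k, 2 * k ≤ D → 0 ≤ df f k

/-- `2 N P N - (N + 2) T N` -/
noncomputable def XX (N : ℕ) : ℤ⟦X⟧ := (2 * N : ℤ⟦X⟧) * P N - (N + 2 : ℤ⟦X⟧) * T N

/-- the three new terms between `N - 3` and `N` are small at `k` -/
def ERR (N k : ℕ) : Prop :=
  (N : ℤ) ^ 2 * (|df (U (N - 2) N * Q (N - 2)) k| + |df (U (N - 1) N * Q (N - 1)) k| +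
    |df (Q N) k|) ≤ 2 * df (T N) k

/-! ### The problem -/

/-- `h_λ` of the problem -/
noncomputable def hl (n : ℕ) (p : n.Partition) : Polynomial ℤ :=
  ∏ i ∈ Icc 1 n, (1 + Polynomial.X ^ i) ^ (n / i - p.parts.count i)

/-- `f` is the numerator `num (n, x)` of the problem -/
def IsNum (n : ℕ) (f : Polynomial ℤ) : Prop :=
  ∃ G : Polynomial ℤ, G.Monic ∧ (∀ p : n.Partition, G ∣ hl n p) ∧
    (∀ q : Polynomial ℤ, (∀ p : n.Partition, q ∣ hl n p) → q ∣ G) ∧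
    G * f = ∑ p : n.Partition, hl n p

/-- the even-indexed coefficients of `f` are unimodal -/
def EvenUnimodal (f : Polynomial ℤ) : Prop :=
  ∃ t : ℕ, (∀ i, i < t → f.coeff (2 * i) ≤ f.coeff (2 * (i + 1))) ∧
    ∀ i, t ≤ i → 2 * (i + 1) ≤ f.natDegree → f.coeff (2 * (i + 1)) ≤ f.coeff (2 * i)

/-- the even-indexed coefficients of `P n` increase up to the centre -/
def EU (n : ℕ) : Prop := ∀ j, 2 * (2 * j + 1) ≤ dg n → coeff (2 * j) (P n) ≤ coeff (2 * j + 2) (P n)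

/-! ### Values at a real point -/

/-- the value of `F m` at `r` -/
noncomputable def Fe (m : ℕ) (r : ℝ) : ℝ :=
  (∑ i ∈ range (op m), r ^ i) * ∏ a ∈ range (padicValNat 2 m), (1 + r ^ (2 ^ (a + 1) * op m))

/-- the value of `T N` at `r` -/
noncomputable def Te (N : ℕ) (r : ℝ) : ℝ := ∏ m ∈ Icc 1 N, Fe m r

/-- the mean of the tilted coefficients of `T N` -/
noncomputable def mu (N : ℕ) (r : ℝ) : ℝ :=
  (∑ i ∈ range (dg N + 1), (i : ℝ) * (((coeff i (T N) : ℤ) : ℝ) * r ^ i)) / Te N r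

/-- the variance of the tilted coefficients of `T N` -/
noncomputable def va (N : ℕ) (r : ℝ) : ℝ :=
  (∑ i ∈ range (dg N + 1), (i : ℝ) ^ 2 * (((coeff i (T N) : ℤ) : ℝ) * r ^ i)) / Te N r -
    mu N r ^ 2

/-- the variance at `r = 1` -/
noncomputable def sg (N : ℕ) : ℝ := ∑ m ∈ Icc 1 N, (4 * (m : ℝ) ^ 2 - 3 * (op m : ℝ) ^ 2 - 1) / 12

/-- `∑ log ((1 + r ^ m') / (1 - r ^ m'))` over `m ≤ N`, `m'` the odd part of `m` -/
noncomputable def SS (N : ℕ) (r : ℝ) : ℝ :=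
  ∑ m ∈ Icc 1 N, Real.log ((1 + r ^ op m) / (1 - r ^ op m))

/-- the exponent of the majorant: for `j = N - 2, N - 1, N`,
`|df (U j N * Q j) k| ≤ 2 r ^ (-k) (Te N r) exp (- A1 N r)` -/
noncomputable def A1 (N : ℕ) (r : ℝ) : ℝ :=
  ((N : ℝ) - 2) * (Real.log ((1 + r) / (1 - r)) / 2) - SS N r - 2.5651 * √(N : ℝ)

/-- absolute sum at `r` -/
def Maj (r : ℝ) (f : ℤ⟦X⟧) (A : ℝ) : Prop :=
  ∀ K : ℕ, ∑ k ∈ range K, |((coeff k f : ℤ) : ℝ)| * r ^ k ≤ A

/-- iterated sums of the number of partitions -/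
def sk : ℕ → ℕ → ℕ
  | 0, n => Fintype.card n.Partition
  | m + 1, n => ∑ j ∈ range (n + 1), sk m j

/-- the width used in the regime `P1` -/
noncomputable def B1 (N : ℕ) (r : ℝ) : ℝ := √((N : ℝ) * r) / (1 - r) + 1

/-- the width used in the regimes `Z`, `C` -/
noncomputable def B0 (N : ℕ) : ℝ := 0.26 * (N : ℝ) * √(N : ℝ)

/-- `6 ⌈√N / 6⌉`, up to rounding: the number of factors used in the regimes `P2`, `Z`, `C` -/
def b2 (N : ℕ) : ℕ := 6 * (Nat.sqrt N / 6 + 1)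

end Pool.Agent.H37.UM
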