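import Pool.Agent.H37.UM.Stmts
import Pool.Agent.H37.UM.Tab

/-!
# Project UM (MP_a56223_co): assembly
-/

set_option autoImplicit false

namespace Pool.Agent.H37.UM

open PowerSeries Finset

theorem tb_of (h0 : TB0Stmt) (h1 : TB1Stmt) (h2 : TB2Stmt) (h3 : TB3Stmt) : TBStmt := by
  intro N hN
  have : N % 4 = 0 ∨ N % 4 = 1 ∨ N % 4 = 2 ∨ N % 4 = 3 := by omega
  rcases this with h | h | h | h
  · exact h0 N (by omega) h
  · exact h1 N (by omega) h
  · exact h2 N (by omega) h
  · exact h3 N (by omega) h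

theorem b_of (h1 : P1XStmt) (h2 : P2XStmt) (h3 : ZXStmt) (h4 : CXStmt) : BStmt := by
  intro N k hN hk hr
  rcases le_total (k : ℝ) (B1 N (1 - 0.6 / √(N : ℝ)) + mu (N - 6) (1 - 0.6 / √(N : ℝ))) with h | h
  · exact h1 N k _ hN hk hr rfl h
  rcases le_total (k : ℝ) (B0 N + mu (N - b2 N) (1 - 2 / N)) with h' | h'
  · exact h2 N k _ hN hk rfl h h'
  rcases le_total (k : ℝ) (B0 N + (dg (N - b2 N) : ℝ) / 2) with h'' | h''
  · exact h3 N k hN hk h' h''
  · exact h4 N k hN hk h''

theorem df_add (f g : ℤ⟦X⟧) (k : ℕ) : df (f + g) k = df f k + df g k := by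
  simp [df, mul_add]

theorem df_sub (f g : ℤ⟦X⟧) (k : ℕ) : df (f - g) k = df f k - df g k := by
  simp [df, mul_sub]

theorem df_nsmul (a : ℤ) (f : ℤ⟦X⟧) (k : ℕ) : df (PowerSeries.C a * f) k = a * df f k := by
  have : (1 - X) * (PowerSeries.C a * f) = PowerSeries.C a * ((1 - X) * f) := by ring
  rw [df, this, PowerSeries.coeff_C_mul, df]

theorem df_zero' (f : ℤ⟦X⟧) : df f 0 = coeff 0 f := by
  simp [df]

theorem df_succ (f : ℤ⟦X⟧) (k : ℕ) : df f (k + 1) = coeff (k + 1) f - coeff k f := by
  have : (1 - X) * f = f - X * f := by ring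
  rw [df, this, map_sub, PowerSeries.coeff_succ_X_mul]

theorem df12 (f : ℤ⟦X⟧) (h1 : 0 ≤ df f 1) (h2 : 0 ≤ df f 2) : coeff 0 f ≤ coeff 2 f := by
  have a := df_succ f 0
  have b := df_succ f 1
  rw [zero_add] at a
  have e : (1 : ℕ) + 1 = 2 := rfl
  rw [e] at b
  rw [a] at h1
  rw [b] at h2
  linarith

theorem four_le_dg (n : ℕ) (hn : 4 ≤ n) : 4 ≤ dg n := by
  have : ∑ i ∈ Finset.Ioc 3 4, (2 * i - op i - 1) ≤ dg n := by
    rw [dg, dU]
    apply Finset.sum_le_sum_of_subset
    intro x hx
    simp only [Finset.mem_Ioc] at hx ⊢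
    omega
  have h2 : ∑ i ∈ Finset.Ioc 3 4, (2 * i - op i - 1) = 6 := by
    have h4 : op 4 = 1 := by
      have : padicValNat 2 4 = 2 := by
        have : (4 : ℕ) = 2 ^ 2 := by norm_num
        rw [this, padicValNat.prime_pow]
      rw [op, this]
      norm_num
    have : Finset.Ioc 3 4 = {4} := by
      ext x; simp only [Finset.mem_Ioc, Finset.mem_singleton]; omega
    rw [this, Finset.sum_singleton, h4]
  omega

theorem XX_eq (N : ℕ) : XX N = PowerSeries.C (2 * N : ℤ) * P N - PowerSeries.C (N + 2 : ℤ) * T N := by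
  rw [XX]
  simp

theorem df_XX (N k : ℕ) : df (XX N) k = 2 * N * df (P N) k - (N + 2) * df (T N) k := by
  rw [XX_eq, df_sub, df_nsmul, df_nsmul]

theorem coeff_XX (N k : ℕ) : coeff k (XX N) = 2 * N * coeff k (P N) - (N + 2) * coeff k (T N) := by
  rw [XX_eq, map_sub, PowerSeries.coeff_C_mul, PowerSeries.coeff_C_mul]

theorem coeff_w (i : ℕ) (hi : 1 ≤ i) : constantCoeff (w i) = 1 := by
  simp [w]
  omega

theorem coeff_g (i : ℕ) : constantCoeff (g i) = 1 := by
  rw [g, PowerSeries.constantCoeff_invOfUnit]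
  simp

theorem coeff_den (n : ℕ) : constantCoeff (den n) = 1 := by
  rw [den, map_prod]
  apply Finset.prod_eq_one
  intro i hi
  rw [map_pow, coeff_w i (Finset.mem_Icc.1 hi).1, one_pow]

theorem coeff_prod_g (s : Multiset ℕ) : constantCoeff ((s.map g).prod) = 1 := by
  induction s using Multiset.induction_on with
  | empty => simp
  | cons a s ih => simp [ih, coeff_g]

theorem coeff_h (n : ℕ) : constantCoeff (h n) = Fintype.card n.Partition := by
  rw [h, map_sum, Finset.sum_congr rfl (fun p _ => coeff_prod_g _)]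
  simp

theorem coeff_P0 (n : ℕ) : coeff 0 (P n) = Fintype.card n.Partition := by
  rw [PowerSeries.coeff_zero_eq_constantCoeff_apply, P, map_mul, coeff_den, coeff_h, one_mul]

theorem one_le_P0 (n : ℕ) : 1 ≤ coeff 0 (P n) := by
  rw [coeff_P0]
  have : 0 < Fintype.card n.Partition := Fintype.card_pos
  exact_mod_cast this

theorem XX_rec (hR : RECStmt) (N : ℕ) (hN : 3 ≤ N) :
    PowerSeries.C ((N : ℤ) - 3) * XX N = PowerSeries.C (N : ℤ) * (U (N - 3) N * XX (N - 3)) +
      PowerSeries.C 6 * T N + PowerSeries.C (2 * (N : ℤ) * ((N : ℤ) - 3)) *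
        (U (N - 2) N * Q (N - 2) + U (N - 1) N * Q (N - 1) + Q N) := by
  obtain ⟨M, rfl⟩ : ∃ M, N = M + 3 := ⟨N - 3, by omega⟩
  have e1 : P (M + 1) = F (M + 1) * P M + Q (M + 1) := hR.1 (M + 1) (by omega)
  have e2 : P (M + 2) = F (M + 2) * P (M + 1) + Q (M + 2) := hR.1 (M + 2) (by omega)
  have e3 : P (M + 3) = F (M + 3) * P (M + 2) + Q (M + 3) := hR.1 (M + 3) (by omega)
  have u1 : U (M + 3 - 1) (M + 3) = F (M + 3) := by
    have : Finset.Ioc (M + 3 - 1) (M + 3) = {M + 3} := by
      ext x; simp only [Finset.mem_Ioc, Finset.mem_singleton]; omega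
    rw [U, this, Finset.prod_singleton]
  have u2 : U (M + 3 - 2) (M + 3) = F (M + 2) * F (M + 3) := by
    have : Finset.Ioc (M + 3 - 2) (M + 3) = {M + 2, M + 3} := by
      ext x; simp only [Finset.mem_Ioc, Finset.mem_insert, Finset.mem_singleton]; omega
    rw [U, this, Finset.prod_pair (by omega)]
  have u3 : U (M + 3 - 3) (M + 3) = F (M + 1) * (F (M + 2) * F (M + 3)) := by
    have : Finset.Ioc (M + 3 - 3) (M + 3) = {M + 1, M + 2, M + 3} := by
      ext x; simp only [Finset.mem_Ioc, Finset.mem_insert, Finset.mem_singleton]; omega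
    rw [U, this, Finset.prod_insert (by simp), Finset.prod_pair (by omega)]
  have t3 : T (M + 3) = U (M + 3 - 3) (M + 3) * T M := by
    rw [T, T, U, U, U]
    have : Finset.Ioc 0 (M + 3) = Finset.Ioc (M + 3 - 3) (M + 3) ∪ Finset.Ioc 0 M := by
      ext x; simp only [Finset.mem_Ioc, Finset.mem_union]; omega
    rw [this, Finset.prod_union]
    rw [Finset.disjoint_left]
    intro x hx hx'
    simp only [Finset.mem_Ioc] at hx hx'
    omega
  rw [XX_eq, XX_eq]
  have a1 : M + 3 - 2 = M + 1 := by omega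
  have a2 : M + 3 - 1 = M + 2 := by omega
  have a3 : M + 3 - 3 = M := by omega
  rw [t3, u3, u1, u2, a1, a2, a3, e3, e2, e1]
  push_cast
  simp only [map_sub, map_add, map_mul, map_natCast, map_ofNat]
  ring

/-- `2 N (N - 3) S` is small -/
theorem ind_of (hR : RECStmt) (hS : SYMPStmt) (hU : UUStmt) (hM : SUMStmt) (hT : TBStmt)
    (hK : KKStmt) (hL1 : LL1Stmt) (hL2 : LL2Stmt) (hB : BStmt) (hA : APXStmt) (h3 : IIIStmt)
    (hF : FKStmt) (h4 : IVFStmt) : INDStmt := by
  intro n
  induction n using Nat.strong_induction_on with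
  | _ n ih =>
  intro hn
  refine ⟨?_, ?_⟩
  swap
  · by_cases h : n < 1300
    · exact h3.2.1 n hn h
    · have a := h4 n 1 (by omega) (by omega) (Or.inl (by omega))
      have b := h4 n 2 (by omega) (by omega) (Or.inl (by omega))
      exact df12 _ a b
  intro k hk2 hkD
  by_cases h62 : n ≤ 62
  · exact hF.2 n k hn h62 hk2 hkD
  by_cases hs : n < 1300 ∧ k ≤ 47
  · exact h3.1 n k hn hs.1 hk2 hs.2 hkD
  by_cases hs4 : 1300 ≤ n ∧ (k ≤ 70 ∨ 25 * k ^ 2 ≤ 81 * n)
  · exact h4 n k hs4.1 (by omega) hs4.2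
  have hk48 : 48 ≤ k := by
    by_contra hlt
    apply hs4
    refine ⟨?_, Or.inl (by omega)⟩
    by_contra h'
    exact hs ⟨by omega, by omega⟩
  have hE : ERR n k ∧ (n < 142 → (10 : ℤ) ^ 23 ≤ df (T n) k) := by
    by_cases h250 : n < 250
    · exact hK n k (by omega) h250 hk48 hkD
    refine ⟨?_, fun h => by omega⟩
    by_cases h1300 : n < 1300
    · by_cases h300 : k ≤ 300
      · by_cases h400 : n < 400
        · exact hL2 n k (by omega) h400 hk48 h300
        · exact hL1 n k (by omega) h1300 hk48 h300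
      · exact hB n k (by omega) hkD (Or.inl ⟨h1300, by omega⟩)
    · have hk' : ¬ (k ≤ 70 ∨ 25 * k ^ 2 ≤ 81 * n) := fun h => hs4 ⟨by omega, h⟩
      push Not at hk'
      by_cases h4k : 4 * k ≤ n
      · exact hA n k (by omega) hk'.1 hk'.2 h4k
      · exact hB n k (by omega) hkD (Or.inr ⟨by omega, by omega⟩)
  obtain ⟨hE, hE2⟩ := hE
  -- the induction hypothesis
  have hm : 60 ≤ n - 3 := by omega
  obtain ⟨ih1, ih2⟩ := ih (n - 3) (by omega) hm
  set m := n - 3 with hmdef
  have hn3 : n = m + 3 := by omega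
  set κ : ℤ := max 0 (-(df (XX m) 1)) with hκ
  have hκ0 : 0 ≤ κ := le_max_left _ _
  have hκ1 : 0 ≤ df (XX m) 1 + κ := by
    have := le_max_right 0 (-(df (XX m) 1))
    rw [← hκ] at this
    linarith
  set D := dg m with hD
  have hDbig : 3 ≤ D := by
    have := four_le_dg m (by omega)
    omega
  set G : ℤ⟦X⟧ := XX m + PowerSeries.C κ * (X ^ 1 * iv (D - 1)) with hG
  have hSXI : SU D (X ^ 1 * iv (D - 1)) := by
    have h1 := hM.2.2.1 (D - 2)
    have h2 := hM.2.2.2.1 (D - 2) 1 _ h1
    have e1 : D - 2 + 1 = D - 1 := by omega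
    have e2 : D - 2 + 2 * 1 = D := by omega
    rwa [e1, e2] at h2
  have hSX : Sym D (XX m) := by
    have s1 := hS m
    have s2 : Sym (dg m) (T m) := hU.1 0 m
    constructor
    · intro j hj
      rw [coeff_XX, s1.top j hj, s2.top j hj]
      ring
    · intro j hj
      rw [coeff_XX, coeff_XX, s1.sym j hj, s2.sym j hj]
  have hSG : SU D G := by
    refine ⟨⟨?_, ?_⟩, ?_⟩
    · intro j hj
      rw [hG, map_add, PowerSeries.coeff_C_mul, hSX.top j hj, hSXI.top j hj]
      ring
    · intro j hj
      rw [hG, map_add, map_add, PowerSeries.coeff_C_mul, PowerSeries.coeff_C_mul, hSX.sym j hj,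
        hSXI.sym j hj]
    · intro j hj
      rw [hG, df_add, df_nsmul]
      have hx := hSXI.mono j hj
      rcases Nat.lt_or_ge j 2 with h | h
      · interval_cases j
        · have : 0 ≤ df (XX m) 0 := by
            rw [df_zero', coeff_XX]
            have p1 := one_le_P0 m
            have t1 : coeff 0 (T m) = 1 := hU.2.2.1 0 m
            rw [t1]
            have hm' : (60 : ℤ) ≤ m := by exact_mod_cast hm
            nlinarith
          have := mul_nonneg hκ0 hx
          linarith
        · have e : df (X ^ 1 * iv (D - 1)) 1 = 1 := by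
            rw [df_succ, pow_one, PowerSeries.coeff_succ_X_mul]
            have c0 : coeff 0 (iv (D - 1)) = 1 := by
              rw [iv, map_sum, Finset.sum_eq_single 0]
              · simp
              · intro b _ hb
                rw [PowerSeries.coeff_X_pow, if_neg (by omega)]
              · intro hb
                exfalso
                apply hb
                rw [Finset.mem_range]
                omega
            rw [c0]
            simp
          rw [e, mul_one]
          exact hκ1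
      · have := ih1 j h hj
        have := mul_nonneg hκ0 hx
        linarith
  have hUG : 0 ≤ df (U (n - 3) n * G) k := by
    have h1 := hM.1 _ _ _ _ (hT n (by omega)) hSG
    apply h1.mono
    have e : dU (n - 3) n + D = dg n := by
      have := hU.2.2.2.2.2.1 0 (n - 3) n (by omega) (by omega)
      rw [hD, ← hmdef]
      exact this
    rw [e]
    exact hkD
  have hUX : df (U (n - 3) n * (X ^ 1 * iv (D - 1))) k ≤ (n : ℤ) ^ 3 := by
    have e : (1 - X) * (U (n - 3) n * (X ^ 1 * iv (D - 1))) =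
        X ^ 1 * U (n - 3) n - X ^ D * U (n - 3) n := by
      have hiv : (1 - X) * iv (D - 1) = 1 - X ^ (D - 1) := by
        rw [iv, mul_comm]
        have := geom_sum_mul (X : ℤ⟦X⟧) (D - 1)
        linear_combination -this
      have hD1 : (X : ℤ⟦X⟧) ^ D = X ^ 1 * X ^ (D - 1) := by
        rw [← pow_add]
        congr 1
        omega
      rw [hD1]
      linear_combination (X ^ 1 * U (n - 3) n) * hiv
    rw [df, e, map_sub]
    have a1 : coeff k (X ^ 1 * U (n - 3) n) ≤ (n : ℤ) ^ 3 := by
      rw [PowerSeries.coeff_X_pow_mul']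
      split_ifs
      · exact hU.2.2.2.1 n (k - 1) (by omega)
      · positivity
    have a2 : 0 ≤ coeff k (X ^ D * U (n - 3) n) := by
      rw [PowerSeries.coeff_X_pow_mul']
      split_ifs
      · exact hU.2.1 _ _ _
      · exact le_rfl
    linarith
  have hrec := congrArg (fun f => df f k) (XX_rec hR n (by omega))
  simp only [df_add, df_nsmul] at hrec
  have hUGe : df (U (n - 3) n * G) k =
      df (U (n - 3) n * XX (n - 3)) k + κ * df (U (n - 3) n * (X ^ 1 * iv (D - 1))) k := by
    have : U (n - 3) n * G = U (n - 3) n * XX (n - 3) +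
        PowerSeries.C κ * (U (n - 3) n * (X ^ 1 * iv (D - 1))) := by
      rw [hG, ← hmdef]
      ring
    rw [this, df_add, df_nsmul]
  have hnpos : (63 : ℤ) ≤ n := by
    have : 63 ≤ n := by omega
    exact_mod_cast this
  set S1 := df (U (n - 2) n * Q (n - 2)) k
  set S2 := df (U (n - 1) n * Q (n - 1)) k
  set S3 := df (Q n) k
  have hE' : (n : ℤ) ^ 2 * (|S1| + |S2| + |S3|) ≤ 2 * df (T n) k := hE
  have habs : -(|S1| + |S2| + |S3|) ≤ S1 + S2 + S3 := by
    have := neg_abs_le S1
    have := neg_abs_le S2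
    have := neg_abs_le S3
    linarith
  have hA0 : 0 ≤ |S1| + |S2| + |S3| := by positivity
  have hTk : 0 ≤ df (T n) k := by
    have : 0 ≤ (n : ℤ) ^ 2 * (|S1| + |S2| + |S3|) := by positivity
    linarith
  have hS : -(4 * df (T n) k) ≤ 2 * (n : ℤ) * ((n : ℤ) - 3) * (S1 + S2 + S3) := by
    have c0 : 0 ≤ 2 * (n : ℤ) * ((n : ℤ) - 3) := by nlinarith
    have c1 : 2 * (n : ℤ) * ((n : ℤ) - 3) * (|S1| + |S2| + |S3|) ≤
        2 * ((n : ℤ) ^ 2 * (|S1| + |S2| + |S3|)) := by
      nlinarith
    have c2 := mul_le_mul_of_nonneg_left habs c0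
    nlinarith
  have hκn : (n : ℤ) * (κ * (n : ℤ) ^ 3) ≤ 2 * df (T n) k := by
    by_cases h139 : 139 ≤ m
    · have hz : κ = 0 := by
        have : 0 ≤ df (XX m) 1 := by
          by_cases h : m < 1300
          · exact h3.2.2.1 m h139 h
          · exact h4 m 1 (by omega) le_rfl (Or.inl (by omega))
        rw [hκ]
        apply max_eq_left
        linarith
      rw [hz]
      simp only [zero_mul, mul_zero]
      linarith
    · have h1 := h3.2.2.2 m hm (by omega)
      have h2 := hE2 (by omega)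
      have hnm : (n : ℤ) = (m : ℤ) + 3 := by
        rw [hn3]
        push_cast
        ring
      rcases le_total 0 (df (XX m) 1) with h | h
      · have hz : κ = 0 := by
          rw [hκ]
          apply max_eq_left
          linarith
        rw [hz]
        simp only [zero_mul, mul_zero]
        linarith
      · have hz : κ = -(df (XX m) 1) := by
          rw [hκ]
          apply max_eq_right
          linarith
        rw [hz, hnm]
        nlinarith
  have hfin : 0 ≤ ((n : ℤ) - 3) * df (XX n) k := by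
    rw [hrec]
    have b1 : 0 ≤ (n : ℤ) * df (U (n - 3) n * G) k := mul_nonneg (by linarith) hUG
    rw [hUGe] at b1
    have b2 : (n : ℤ) * (κ * df (U (n - 3) n * (X ^ 1 * iv (D - 1))) k) ≤
        (n : ℤ) * (κ * (n : ℤ) ^ 3) := by
      apply mul_le_mul_of_nonneg_left _ (by linarith)
      exact mul_le_mul_of_nonneg_left hUX hκ0
    have b3 : (n : ℤ) * (df (U (n - 3) n * XX (n - 3)) k +
        κ * df (U (n - 3) n * (X ^ 1 * iv (D - 1))) k) =
        (n : ℤ) * df (U (n - 3) n * XX (n - 3)) k +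
        (n : ℤ) * (κ * df (U (n - 3) n * (X ^ 1 * iv (D - 1))) k) := by ring
    rw [b3] at b1
    linarith
  have hpos : 0 < (n : ℤ) - 3 := by linarith
  by_contra hneg
  push Not at hneg
  have := mul_neg_of_pos_of_neg hpos hneg
  linarith

theorem eu_of (hS : SYMPStmt) (hU : UUStmt) (hT : TSUStmt) (hF : FKStmt) (hI : INDStmt) :
    EUStmt := by
  intro n hn
  by_cases h60 : n < 60
  · exact hF.1 n hn (by omega)
  push Not at h60
  intro j hj
  have hn' : (60 : ℤ) ≤ n := by exact_mod_cast h60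
  have hX := hI n h60
  have hTn := hT n (by omega)
  -- df P k ≥ 0
  have key : ∀ k, 2 ≤ k → 2 * k ≤ dg n → 0 ≤ df (P n) k := by
    intro k h1 h2
    have a := hX.1 k h1 h2
    have b := hTn.mono k h2
    rw [df_XX] at a
    by_contra hneg
    push Not at hneg
    nlinarith
  rcases Nat.eq_zero_or_pos j with h0 | h0
  · subst h0
    have a := hX.2
    rw [coeff_XX, coeff_XX] at a
    have t : coeff 0 (T n) ≤ coeff 2 (T n) := by
      have hDn := four_le_dg n (by omega)
      exact df12 _ (hTn.mono 1 (by omega)) (hTn.mono 2 (by omega))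
    change coeff 0 (P n) ≤ coeff 2 (P n)
    by_contra hneg
    push Not at hneg
    have hn0 : (0 : ℤ) < n := by linarith
    nlinarith
  · by_cases h2 : 2 * (2 * j + 2) ≤ dg n
    · have a1 := key (2 * j + 1) (by omega) hj
      have a2 := key (2 * j + 1 + 1) (by omega) (by omega)
      rw [df_succ] at a1 a2
      have : 2 * j + 1 + 1 = 2 * j + 2 := by omega
      rw [this] at a2
      linarith
    · have hev : Even (dg n) := hU.2.2.2.2.2.2 0 n
      obtain ⟨c, hc⟩ := hev
      have hd : dg n = 2 * (2 * j + 1) := by omega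
      have s := (hS n).sym (2 * j + 2) (by omega)
      have e : dg n - (2 * j + 2) = 2 * j := by omega
      rw [e] at s
      exact s.le

theorem fin_of (hS : SYMPStmt) (hU : UUStmt) (h2 : R2Stmt) (h3 : R3Stmt) (hE : EUStmt) :
    ∀ n : ℕ, 1 ≤ n → (∃! f : Polynomial ℤ, IsNum n f) ∧
      ∀ f : Polynomial ℤ, IsNum n f → EvenUnimodal f := by
  intro n hn
  constructor
  · obtain ⟨f, hf⟩ := h3 n hn
    refine ⟨f, hf, ?_⟩
    intro q hq
    ext k
    have a := h2 n f hn hf k
    have b := h2 n q hn hq k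
    rw [a] at b
    rcases Nat.even_or_odd k with h | h
    · rw [h.neg_one_pow] at b
      linarith
    · rw [h.neg_one_pow] at b
      linarith
  · intro f hf
    have hc : ∀ i, f.coeff (2 * i) = coeff (2 * i) (P n) := by
      intro i
      rw [h2 n f hn hf (2 * i), pow_mul]
      simp
    have hS' := hS n
    obtain ⟨c, hcD⟩ : Even (dg n) := hU.2.2.2.2.2.2 0 n
    refine ⟨(dg n / 2 + 1) / 2, ?_, ?_⟩
    · intro i hi
      rw [hc, hc]
      exact hE n hn i (by omega)
    · intro i hi _
      rw [hc, hc]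
      by_cases h : 2 * (i + 1) ≤ dg n
      · have s1 := hS'.sym (2 * (i + 1)) h
        have s2 := hS'.sym (2 * i) (by omega)
        obtain ⟨j, hj⟩ : ∃ j, dg n - 2 * (i + 1) = 2 * j := ⟨c - (i + 1), by omega⟩
        have hj2 : dg n - 2 * i = 2 * j + 2 := by omega
        rw [← s1, ← s2, hj, hj2]
        exact hE n hn j (by omega)
      · have z := hS'.top (2 * (i + 1)) (by omega)
        rw [z]
        by_cases h' : dg n < 2 * i
        · rw [hS'.top _ h']
        · have e : 2 * i = dg n := by omega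
          have s := hS'.sym 0 (by omega)
          rw [Nat.sub_zero] at s
          rw [e, s]
          have := one_le_P0 n
          linarith

end Pool.Agent.H37.UM
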