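import Pool.Agent.H37.UM.KKa

/-!
# Kernel functions for the module KK: start values
-/

namespace Pool.Agent.H37.UM.KK

noncomputable section

/-- half the degree of `T n` -/
def HK (n : Nat) : Nat :=
  Nat.rec (motive := fun _ => Nat) 0 (fun n ih =>
    Nat.add ih (Nat.div (Nat.sub (Nat.sub (Nat.mul 2 (Nat.succ n)) (opk (Nat.succ n))) 1) 2)) n

/-- product of the values of `F m` at `z`, for `m` in `(a, a + n]` (`n ≤ 2 ^ (fuel - 1)`) -/
def PF (z fuel : Nat) : Nat → Nat → Nat :=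
  Nat.rec (motive := fun _ => Nat → Nat → Nat) (fun _ _ => 1) (fun _ ih a n =>
    cond (Nat.ble n 1) (cond (Nat.ble n 0) 1 (Fz z (Nat.succ a)))
      (force (Nat.div n 2) fun h => force (Nat.add a h) fun a' => force (Nat.sub n h) fun n' =>
        Nat.mul (ih a h) (ih a' n'))) fuel

/-- packed `T n` -/
def W0 (B Mx n : Nat) : Nat :=
  Nat.land (PF (Nat.pow 2 B) 9 0 n) (Nat.pred (Nat.pow (Nat.pow 2 B) Mx))

end

end Pool.Agent.H37.UM.KK
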