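import Pool.Agent.H37.UM.KKr18
import Pool.Agent.H37.UM.KKb
import Pool.Agent.H37.UM.Tab

/-!
# Kernel run 22 for the module KK
-/

set_option maxRecDepth 100000

namespace Pool.Agent.H37.UM.KK

theorem run22 : loop 1630 256 20616 249 ktab (Nat.sub 249 248) 248 (HK 248) (W0 1630 20616 248) = true := by
  decide +kernel

end Pool.Agent.H37.UM.KK
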