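import Pool.Agent.H37.UM.KKr19
import Pool.Agent.H37.UM.KKr20
import Pool.Agent.H37.UM.KKr21
import Pool.Agent.H37.UM.KKr22

/-!
# Kernel runs for the module KK

Each run is in its own module (`KKr01`, ..., `KKr22`), in four chains of imports, so that at most
four of them are built at the same time.
-/
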