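import Pool.Agent.H37.UM.KKu
import Pool.Agent.H37.UM.KKr
import Pool.Agent.H37.UM.Tab

/-!
# Module KK
-/

set_option autoImplicit false

namespace Pool.Agent.H37.UM.KK

open Finset

lemma tab_facts : ∀ t ∈ ktab, (0 < t.2.2.1 ∧ t.2.2.1 < 1000) ∧ 0 < t.2.2.2.1 := by decide

lemma fd_pos (a m : ℕ) (ha : 0 < a) (ha2 : a < 1000) : 0 < fd a m := by
  have : fd a m = 1000 ^ (2 * m) * (1000 - a) * (1000 ^ opk m + a ^ opk m) := rfl
  rw [this]
  have : 0 < 1000 - a := by omega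
  positivity

lemma Cd_pos (N a b : ℕ) (ha : 0 < a) (ha2 : a < 1000) (hb : 0 < b) : 0 < Cd N a b := by
  have : Cd N a b = 131072000 * b ^ N * (1000000 * (fd a N * fd a (Nat.pred N))) := rfl
  rw [this]
  have h1 := fd_pos a N ha ha2
  have h2 := fd_pos a (Nat.pred N) ha ha2
  positivity

lemma ents_mem (tab : List (ℕ × ℕ × ℕ × ℕ × ℕ)) (N : ℕ) (e : ℕ × ℕ × ℕ) (he : e ∈ ents tab N) :
    ∃ t ∈ tab, t.1 ≤ N ∧ N ≤ t.2.1 ∧
      e = (Cn N t.2.2.1 t.2.2.2.1 t.2.2.2.2, Cd N t.2.2.1 t.2.2.2.1, t.2.2.1) := by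
  induction tab with
  | nil => exact absurd he (by simp [ents])
  | cons t tab ih =>
    have he' : e ∈ cond (and (Nat.ble t.1 N) (Nat.ble N t.2.1))
      ((Cn N t.2.2.1 t.2.2.2.1 t.2.2.2.2, Cd N t.2.2.1 t.2.2.2.1, t.2.2.1) :: ents tab N)
      (ents tab N) := he
    cases hc : and (Nat.ble t.1 N) (Nat.ble N t.2.1)
    · rw [hc, cond_false] at he'
      obtain ⟨t', h1, h2⟩ := ih he'
      exact ⟨t', by simp [h1], h2⟩
    · rw [hc, cond_true] at he'
      rw [Bool.and_eq_true] at hc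
      rcases List.mem_cons.1 he' with h | h
      · exact ⟨t, by simp, Nat.le_of_ble_eq_true hc.1, Nat.le_of_ble_eq_true hc.2, h⟩
      · obtain ⟨t', h1, h2⟩ := ih h
        exact ⟨t', by simp [h1], h2⟩

lemma Fe_eq (hO : OPStmt) (m : ℕ) (r : ℝ) (hm : 1 ≤ m) :
    Fe m r * ((1 - r) * (1 + r ^ op m)) = 1 - r ^ (2 * m) := by
  rw [Fe]
  exact F_id hO r m hm

lemma Fe_pos (m : ℕ) (r : ℝ) (hm : 1 ≤ m) (hO : OPStmt) (hr : 0 < r) : 0 < Fe m r := by
  rw [Fe]
  apply mul_pos
  · apply Finset.sum_pos (fun i _ => by positivity)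
    rw [Finset.nonempty_range_iff]
    have := (hO.1 m hm).2.1
    omega
  · exact Finset.prod_pos (fun i _ => by positivity)

lemma fn_eq (hO : OPStmt) (a m : ℕ) (ha : 0 < a) (ha2 : a < 1000) (hm : 1 ≤ m) (hm2 : m < 256) :
    (fn a m : ℝ) = Fe m ((a : ℝ) / 1000) * (fd a m : ℝ) := by
  have ha' : (0 : ℝ) < a := by exact_mod_cast ha
  have ha2' : (a : ℝ) < 1000 := by exact_mod_cast ha2
  have h := Fe_eq hO m ((a : ℝ) / 1000) hm
  have e1 : fn a m = (1000 ^ (2 * m) - a ^ (2 * m)) * 1000 ^ (op m + 1) := by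
    rw [← opk_eq hO m hm hm2]
    rfl
  have e2 : fd a m = 1000 ^ (2 * m) * (1000 - a) * (1000 ^ op m + a ^ op m) := by
    rw [← opk_eq hO m hm hm2]
    rfl
  have hle : a ^ (2 * m) ≤ 1000 ^ (2 * m) := Nat.pow_le_pow_left ha2.le _
  rw [e1, e2]
  push_cast [hle, ha2.le]
  have p1 : (0 : ℝ) < 1000 ^ (2 * m) := by positivity
  have p2 : (0 : ℝ) < 1000 ^ (op m) := by positivity
  have h1 : ((a : ℝ) / 1000) ^ (2 * m) = (a : ℝ) ^ (2 * m) / 1000 ^ (2 * m) := div_pow _ _ _
  have h2 : ((a : ℝ) / 1000) ^ (op m) = (a : ℝ) ^ (op m) / 1000 ^ (op m) := div_pow _ _ _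
  rw [h1, h2] at h
  have h3 : (1 : ℝ) - (a : ℝ) ^ (2 * m) / 1000 ^ (2 * m) =
      (1000 ^ (2 * m) - (a : ℝ) ^ (2 * m)) / 1000 ^ (2 * m) := by
    field_simp
  have h4 : ((1 : ℝ) - (a : ℝ) / 1000) * (1 + (a : ℝ) ^ op m / 1000 ^ op m) =
      (1000 - (a : ℝ)) * (1000 ^ op m + (a : ℝ) ^ op m) / (1000 * 1000 ^ op m) := by
    field_simp
  rw [h3, h4] at h
  have h5 : (1000 ^ (2 * m) - (a : ℝ) ^ (2 * m)) = Fe m ((a : ℝ) / 1000) *
      ((1000 - (a : ℝ)) * (1000 ^ op m + (a : ℝ) ^ op m) / (1000 * 1000 ^ op m)) *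
      1000 ^ (2 * m) := by
    rw [h]
    field_simp
  rw [h5, pow_succ]
  field_simp

lemma final (hM3 : M3Stmt) (hK : KTabStmt ktab) (hO : OPStmt) (N k d : ℕ) (t : ℕ × ℕ × ℕ × ℕ × ℕ)
    (ht : t ∈ ktab) (h1 : t.1 ≤ N) (h2 : N ≤ t.2.1) (hN : 63 ≤ N) (hN2 : N < 250)
    (h : Cn N t.2.2.1 t.2.2.2.1 t.2.2.2.2 * 1000 ^ k ≤
      d * (Cd N t.2.2.1 t.2.2.2.1 * t.2.2.1 ^ k)) :
    (N : ℝ) ^ 2 * (|((df (U (N - 2) N * Q (N - 2)) k : ℤ) : ℝ)| +
      |((df (U (N - 1) N * Q (N - 1)) k : ℤ) : ℝ)| + |((df (Q N) k : ℤ) : ℝ)|) ≤ 2 * (d : ℝ) := by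
  obtain ⟨⟨ha, ha2⟩, hb⟩ := tab_facts t ht
  set a := t.2.2.1
  set b := t.2.2.2.1
  set G := t.2.2.2.2
  have ha' : (0 : ℝ) < a := by exact_mod_cast ha
  have ha2' : (a : ℝ) < 1000 := by exact_mod_cast ha2
  have hb' : (0 : ℝ) < b := by exact_mod_cast hb
  set r : ℝ := (a : ℝ) / 1000 with hr
  set q : ℝ := (b : ℝ) / 1000 with hq
  have hr0 : 0 < r := by positivity
  have hr1 : r < 1 := by rw [hr, div_lt_one (by norm_num)]; exact ha2'
  have hq0 : 0 < q := by positivity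
  have hN' : (63 : ℝ) ≤ N := by exact_mod_cast hN
  obtain ⟨M, rfl⟩ : ∃ M, N = M + 2 := ⟨N - 2, by omega⟩
  set u := Fe (M + 2) r with hu
  set v := Fe (M + 1) r with hv
  have hu0 : 0 < u := Fe_pos _ _ (by omega) hO hr0
  have hv0 : 0 < v := Fe_pos _ _ (by omega) hO hr0
  have hG0 : (0 : ℝ) ≤ (G : ℝ) / 65536 := by positivity
  have key : ∀ j, M ≤ j → j ≤ M + 2 →
      |((df (U j (M + 2) * Q j) k : ℤ) : ℝ)| ≤ (1 + r) * (r ^ k)⁻¹ *
        (∏ m ∈ Ioc j (M + 2), Fe m r) * (q ^ j)⁻¹ * ((G : ℝ) / 65536) := by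
    intro j hj1 hj2
    refine (hM3 (M + 2) j k r q hj2 hr0 hr1 hq0).trans ?_
    apply mul_le_mul_of_nonneg_left
    · exact hK t ht j (by omega) (by omega)
    · have : 0 ≤ ∏ m ∈ Ioc j (M + 2), Fe m r := by
        apply Finset.prod_nonneg
        intro m hm
        exact (Fe_pos m r (by have := (Finset.mem_Ioc.1 hm).1; omega) hO hr0).le
      positivity
  have k0 := key M (by omega) (by omega)
  have k1 := key (M + 1) (by omega) (by omega)
  have k2 := key (M + 2) (by omega) (by omega)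
  have p0 : ∏ m ∈ Ioc M (M + 2), Fe m r = v * u := by
    have : Ioc M (M + 2) = {M + 1, M + 2} := by
      ext x; simp only [Finset.mem_Ioc, Finset.mem_insert, Finset.mem_singleton]; omega
    rw [this, Finset.prod_pair (by omega)]
  have p1 : ∏ m ∈ Ioc (M + 1) (M + 2), Fe m r = u := by
    have : Ioc (M + 1) (M + 2) = {M + 2} := by
      ext x; simp only [Finset.mem_Ioc, Finset.mem_singleton]; omega
    rw [this, Finset.prod_singleton]
  have p2 : ∏ m ∈ Ioc (M + 2) (M + 2), Fe m r = 1 := by simp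
  rw [p0] at k0
  rw [p1] at k1
  rw [p2] at k2
  have hQN : U (M + 2) (M + 2) * Q (M + 2) = Q (M + 2) := by
    rw [U]
    simp
  rw [hQN] at k2
  have e1 : M + 2 - 2 = M := by omega
  have e2 : M + 2 - 1 = M + 1 := by omega
  rw [e1, e2]
  -- the sum of the three bounds
  have hsum : |((df (U M (M + 2) * Q M) k : ℤ) : ℝ)| +
      |((df (U (M + 1) (M + 2) * Q (M + 1)) k : ℤ) : ℝ)| + |((df (Q (M + 2)) k : ℤ) : ℝ)| ≤
      (1 + r) * ((G : ℝ) / 65536) * (1 + q * u + q ^ 2 * (u * v)) / (q ^ (M + 2) * r ^ k) := by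
    have hq1 : q ^ (M + 1) = q ^ M * q := pow_succ _ _
    have hq2 : q ^ (M + 2) = q ^ M * q ^ 2 := pow_add _ _ _
    rw [hq1] at k1
    rw [hq2] at k2 ⊢
    have hqM : 0 < q ^ M := by positivity
    have hrk : 0 < r ^ k := by positivity
    calc _ ≤ (1 + r) * (r ^ k)⁻¹ * (v * u) * (q ^ M)⁻¹ * ((G : ℝ) / 65536) +
          (1 + r) * (r ^ k)⁻¹ * u * (q ^ M * q)⁻¹ * ((G : ℝ) / 65536) +
          (1 + r) * (r ^ k)⁻¹ * 1 * (q ^ M * q ^ 2)⁻¹ * ((G : ℝ) / 65536) := by linarith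
      _ = _ := by
        field_simp
        ring
  -- the integer inequality
  have hfd1 : (0 : ℝ) < fd a (M + 2) := by exact_mod_cast fd_pos a (M + 2) ha ha2
  have hfd2 : (0 : ℝ) < fd a (M + 1) := by exact_mod_cast fd_pos a (M + 1) ha ha2
  have hfn1 := fn_eq hO a (M + 2) ha ha2 (by omega) (by omega)
  have hfn2 := fn_eq hO a (M + 1) ha ha2 (by omega) (by omega)
  rw [← hr, ← hu] at hfn1
  rw [← hr, ← hv] at hfn2
  have hCn : Cn (M + 2) a b G = ((M + 2) * (M + 2) * (1000 + a) * (G * 1000 ^ (M + 2))) *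
      (1000000 * (fd a (M + 2) * fd a (M + 1)) + 1000 * b * (fn a (M + 2) * fd a (M + 1)) +
      b * b * (fn a (M + 2) * fn a (M + 1))) := by
    unfold Cn
    rfl
  have hCd : Cd (M + 2) a b = 131072000 * b ^ (M + 2) * (1000000 * (fd a (M + 2) * fd a (M + 1))) := by
    unfold Cd
    rfl
  have hint : (Cn (M + 2) a b G : ℝ) * 1000 ^ k ≤ d * ((Cd (M + 2) a b : ℝ) * (a : ℝ) ^ k) := by
    exact_mod_cast h
  rw [hCn, hCd] at hint
  push_cast at hint
  rw [hfn1, hfn2] at hint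
  have har : (a : ℝ) = 1000 * r := by rw [hr]; ring
  have hbq : (b : ℝ) = 1000 * q := by rw [hq]; ring
  rw [har, hbq, mul_pow, mul_pow] at hint
  have p1000 : (0 : ℝ) < 1000 ^ (M + 2) := by positivity
  have p1000k : (0 : ℝ) < 1000 ^ k := by positivity
  set A := (fd (a : ℕ) (M + 2) : ℝ) with hA
  set C := (fd (a : ℕ) (M + 1) : ℝ) with hC
  clear_value A C
  have hfac : (0 : ℝ) < 1000 ^ (M + 2) * 1000 ^ k * (A * C) * 131072000000000 :=
    mul_pos (mul_pos (mul_pos p1000 p1000k) (mul_pos hfd1 hfd2)) (by norm_num)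
  have hint2 : ((M : ℝ) + 2) ^ 2 * ((1 + r) * ((G : ℝ) / 65536) * (1 + q * u + q ^ 2 * (u * v))) *
      (1000 ^ (M + 2) * 1000 ^ k * (A * C) * 131072000000000) ≤
      2 * (d : ℝ) * (q ^ (M + 2) * r ^ k) *
      (1000 ^ (M + 2) * 1000 ^ k * (A * C) * 131072000000000) := by
    nlinarith
  have hint3 := le_of_mul_le_mul_right hint2 hfac
  have hqr : 0 < q ^ (M + 2) * r ^ k := by positivity
  have hM2 : (((M + 2 : ℕ) : ℝ)) ^ 2 = ((M : ℝ) + 2) ^ 2 := by push_cast; ring
  rw [hM2]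
  calc _ ≤ ((M : ℝ) + 2) ^ 2 * ((1 + r) * ((G : ℝ) / 65536) * (1 + q * u + q ^ 2 * (u * v)) /
        (q ^ (M + 2) * r ^ k)) := by
        apply mul_le_mul_of_nonneg_left hsum
        positivity
    _ = (((M : ℝ) + 2) ^ 2 * ((1 + r) * ((G : ℝ) / 65536) * (1 + q * u + q ^ 2 * (u * v)))) /
        (q ^ (M + 2) * r ^ k) := by ring
    _ ≤ 2 * (d : ℝ) := by
        rw [div_le_iff₀ hqr]
        exact hint3

theorem KK_thm (hM3 : M3Stmt) (hK : KTabStmt ktab) (hO : OPStmt) (hU : UUStmt) (hT : TSUStmt) :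
    KKStmt := by
  have hes : ∀ N, ∀ e ∈ ents ktab N, e.2.2 ≤ 1000 ∧ 0 < e.2.2 ∧ 0 < e.2.1 := by
    intro N e he
    obtain ⟨t, h1, _, _, h4⟩ := ents_mem ktab N e he
    obtain ⟨⟨ha, ha2⟩, hb⟩ := tab_facts t h1
    rw [h4]
    exact ⟨ha2.le, ha, Cd_pos N _ _ ha ha2 hb⟩
  intro N k h1 h2 h3 h4
  have main : OKd (cond (Nat.blt N 142) (Nat.pow 10 23) 0) (ents ktab N) k (df (T N) k).toNat := by
    have : (63 ≤ N ∧ N ≤ 125) ∨ (126 ≤ N ∧ N ≤ 146) ∨ (147 ≤ N ∧ N ≤ 160) ∨ (161 ≤ N ∧ N ≤ 171) ∨ (172 ≤ N ∧ N ≤ 180) ∨ (181 ≤ N ∧ N ≤ 188) ∨ (189 ≤ N ∧ N ≤ 195) ∨ (196 ≤ N ∧ N ≤ 201) ∨ (202 ≤ N ∧ N ≤ 206) ∨ (207 ≤ N ∧ N ≤ 211) ∨ (212 ≤ N ∧ N ≤ 215) ∨ (216 ≤ N ∧ N ≤ 219) ∨ (220 ≤ N ∧ N ≤ 223) ∨ (224 ≤ N ∧ N ≤ 227) ∨ (228 ≤ N ∧ N ≤ 230) ∨ (231 ≤ N ∧ N ≤ 233) ∨ (234 ≤ N ∧ N ≤ 236) ∨ (237 ≤ N ∧ N ≤ 239) ∨ (240 ≤ N ∧ N ≤ 242) ∨ (243 ≤ N ∧ N ≤ 245) ∨ (246 ≤ N ∧ N ≤ 248) ∨ (249 ≤ N ∧ N ≤ 249) := by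
      omega
    rcases this with h | h | h | h | h | h | h | h | h | h | h | h | h | h | h | h | h | h | h | h | h | h
    · exact run_sound2 hO hU hT 697 256 5178 62 63 125 ktab (by norm_num) (by decide +kernel) (by norm_num)
        (by norm_num) (by norm_num) (by norm_num) hes run1 N k (by omega) (by omega) h3 h4
    · exact run_sound2 hO hU hT 846 256 7092 125 126 146 ktab (by norm_num) (by decide +kernel) (by norm_num)
        (by norm_num) (by norm_num) (by norm_num) hes run2 N k (by omega) (by omega) h3 h4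
    · exact run_sound2 hO hU hT 947 256 8533 146 147 160 ktab (by norm_num) (by decide +kernel) (by norm_num)
        (by norm_num) (by norm_num) (by norm_num) hes run3 N k (by omega) (by omega) h3 h4
    · exact run_sound2 hO hU hT 1028 256 9700 160 161 171 ktab (by norm_num) (by decide +kernel) (by norm_num)
        (by norm_num) (by norm_num) (by norm_num) hes run4 N k (by omega) (by omega) h3 h4
    · exact run_sound2 hO hU hT 1095 256 10790 171 172 180 ktab (by norm_num) (by decide +kernel) (by norm_num)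
        (by norm_num) (by norm_num) (by norm_num) hes run5 N k (by omega) (by omega) h3 h4
    · exact run_sound2 hO hU hT 1156 256 11767 180 181 188 ktab (by norm_num) (by decide +kernel) (by norm_num)
        (by norm_num) (by norm_num) (by norm_num) hes run6 N k (by omega) (by omega) h3 h4
    · exact run_sound2 hO hU hT 1209 256 12626 188 189 195 ktab (by norm_num) (by decide +kernel) (by norm_num)
        (by norm_num) (by norm_num) (by norm_num) hes run7 N k (by omega) (by omega) h3 h4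
    · exact run_sound2 hO hU hT 1255 256 13429 195 196 201 ktab (by norm_num) (by decide +kernel) (by norm_num)
        (by norm_num) (by norm_num) (by norm_num) hes run8 N k (by omega) (by omega) h3 h4
    · exact run_sound2 hO hU hT 1293 256 14115 201 202 206 ktab (by norm_num) (by decide +kernel) (by norm_num)
        (by norm_num) (by norm_num) (by norm_num) hes run9 N k (by omega) (by omega) h3 h4
    · exact run_sound2 hO hU hT 1331 256 14785 206 207 211 ktab (by norm_num) (by decide +kernel) (by norm_num)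
        (by norm_num) (by norm_num) (by norm_num) hes run10 N k (by omega) (by omega) h3 h4
    · exact run_sound2 hO hU hT 1362 256 15343 211 212 215 ktab (by norm_num) (by decide +kernel) (by norm_num)
        (by norm_num) (by norm_num) (by norm_num) hes run11 N k (by omega) (by omega) h3 h4
    · exact run_sound2 hO hU hT 1393 256 15925 215 216 219 ktab (by norm_num) (by decide +kernel) (by norm_num)
        (by norm_num) (by norm_num) (by norm_num) hes run12 N k (by omega) (by omega) h3 h4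
    · exact run_sound2 hO hU hT 1425 256 16504 219 220 223 ktab (by norm_num) (by decide +kernel) (by norm_num)
        (by norm_num) (by norm_num) (by norm_num) hes run13 N k (by omega) (by omega) h3 h4
    · exact run_sound2 hO hU hT 1456 256 17118 223 224 227 ktab (by norm_num) (by decide +kernel) (by norm_num)
        (by norm_num) (by norm_num) (by norm_num) hes run14 N k (by omega) (by omega) h3 h4
    · exact run_sound2 hO hU hT 1479 256 17603 227 228 230 ktab (by norm_num) (by decide +kernel) (by norm_num)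
        (by norm_num) (by norm_num) (by norm_num) hes run15 N k (by omega) (by omega) h3 h4
    · exact run_sound2 hO hU hT 1503 256 18051 230 231 233 ktab (by norm_num) (by decide +kernel) (by norm_num)
        (by norm_num) (by norm_num) (by norm_num) hes run16 N k (by omega) (by omega) h3 h4
    · exact run_sound2 hO hU hT 1527 256 18549 233 234 236 ktab (by norm_num) (by decide +kernel) (by norm_num)
        (by norm_num) (by norm_num) (by norm_num) hes run17 N k (by omega) (by omega) h3 h4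
    · exact run_sound2 hO hU hT 1550 256 18964 236 237 239 ktab (by norm_num) (by decide +kernel) (by norm_num)
        (by norm_num) (by norm_num) (by norm_num) hes run18 N k (by omega) (by omega) h3 h4
    · exact run_sound2 hO hU hT 1574 256 19497 239 240 242 ktab (by norm_num) (by decide +kernel) (by norm_num)
        (by norm_num) (by norm_num) (by norm_num) hes run19 N k (by omega) (by omega) h3 h4
    · exact run_sound2 hO hU hT 1598 256 19953 242 243 245 ktab (by norm_num) (by decide +kernel) (by norm_num)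
        (by norm_num) (by norm_num) (by norm_num) hes run20 N k (by omega) (by omega) h3 h4
    · exact run_sound2 hO hU hT 1622 256 20492 245 246 248 ktab (by norm_num) (by decide +kernel) (by norm_num)
        (by norm_num) (by norm_num) (by norm_num) hes run21 N k (by omega) (by omega) h3 h4
    · exact run_sound2 hO hU hT 1630 256 20616 248 249 249 ktab (by norm_num) (by decide +kernel) (by norm_num)
        (by norm_num) (by norm_num) (by norm_num) hes run22 N k (by omega) (by omega) h3 h4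
  have hpos : 0 ≤ df (T N) k := (hT N (by omega)).mono k h4
  have hd : (((df (T N) k).toNat : ℕ) : ℤ) = df (T N) k := Int.toNat_of_nonneg hpos
  obtain ⟨m1, e, he, m2⟩ := main
  obtain ⟨t, ht1, ht2, ht3, ht4⟩ := ents_mem ktab N e he
  rw [ht4] at m2
  constructor
  · have := final hM3 hK hO N k _ t ht1 ht2 ht3 h1 h2 m2
    have e3 : (((df (T N) k).toNat : ℕ) : ℝ) = ((df (T N) k : ℤ) : ℝ) := by
      have h := congrArg (fun z : ℤ => (z : ℝ)) hd
      rw [← h]
      exact (Int.cast_natCast _).symm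
    rw [e3] at this
    rw [ERR]
    exact_mod_cast this
  · intro hN
    have hb : Nat.blt N 142 = true := Nat.ble_eq_true_of_le hN
    rw [hb, cond_true] at m1
    have : ((Nat.pow 10 23 : ℕ) : ℤ) ≤ (((df (T N) k).toNat : ℕ) : ℤ) := by exact_mod_cast m1
    rw [hd] at this
    have e10 : ((Nat.pow 10 23 : ℕ) : ℤ) = 10 ^ 23 := by
      change (((10 ^ 23 : ℕ)) : ℤ) = _
      norm_num
    rw [e10] at this
    exact this

end Pool.Agent.H37.UM.KK
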