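/-!
# Kernel functions for the module KK

All functions are written with recursors and accelerated operations on natural numbers, for evaluation by the
kernel.  This file does not import Mathlib.
-/

namespace Pool.Agent.H37.UM.KK

noncomputable section

/-- evaluate the argument first -/
@[reducible] def force {β : Type} (x : Nat) (f : Nat → β) : β :=
  Nat.rec (motive := fun _ => β) (f 0) (fun n _ => f (Nat.succ n)) x

/-- the number `1 + z + ... + z ^ (n - 1)` -/
def rep (z n : Nat) : Nat := Nat.div (Nat.sub (Nat.pow z n) 1) (Nat.sub z 1)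

/-- all the `n` lower digits of `x` in base `2 ^ B` are at least `c` -/
def tst (B x n c : Nat) : Bool :=
  and (Nat.ble c (Nat.pow 2 (Nat.pred B)))
    (Nat.beq
      (Nat.land (Nat.add x (Nat.mul (Nat.sub (Nat.pow 2 (Nat.pred B)) c) (rep (Nat.pow 2 B) n)))
        (Nat.mul (Nat.pow 2 (Nat.pred B)) (rep (Nat.pow 2 B) n)))
      (Nat.mul (Nat.pow 2 (Nat.pred B)) (rep (Nat.pow 2 B) n)))

/-- threshold -/
def thr (Cn Cd a k : Nat) : Nat :=
  Nat.succ (Nat.div (Nat.mul Cn (Nat.pow 1000 k)) (Nat.mul Cd (Nat.pow a k)))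

/-- maximum -/
def mx (a b : Nat) : Nat := cond (Nat.ble a b) b a

/-- test with one of the entries -/
def anyE (B c0 : Nat) (es : List (Nat × Nat × Nat)) (x n k : Nat) : Bool :=
  List.rec (motive := fun _ => Bool) false
    (fun e _ ih => or (force (thr e.1 e.2.1 e.2.2 k) fun t => tst B x n (mx c0 t)) ih) es

/-- check of the digits `lo, ..., lo + n - 1` -/
def chk (B L0 c0 : Nat) (es : List (Nat × Nat × Nat)) (fuel : Nat) : Nat → Nat → Nat → Bool :=
  Nat.rec (motive := fun _ => Nat → Nat → Nat → Bool) (fun _ _ _ => false) (fun _ ih x lo n =>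
    cond (and (Nat.ble n L0) (anyE B c0 es x n (Nat.pred (Nat.add lo n)))) true
      (cond (Nat.ble n 1) false
        (force (Nat.div n 2) fun h =>
          and (ih (Nat.land x (Nat.pred (Nat.pow (Nat.pow 2 B) h))) lo h)
            (ih (Nat.shiftRight x (Nat.mul B h)) (Nat.add lo h) (Nat.sub n h))))) fuel

/-- the odd part (`m < 256`) -/
def opk (m : Nat) : Nat := Nat.div m (Nat.gcd m 256)

/-- the value of `F m` at `z` -/
def Fz (z m : Nat) : Nat :=
  Nat.div (Nat.pred (Nat.pow z (Nat.mul 2 m)))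
    (Nat.mul (Nat.pred z) (Nat.succ (Nat.pow z (opk m))))

/-- numerator of the value of `F m` at `a / 1000` -/
def fn (a m : Nat) : Nat :=
  Nat.mul (Nat.sub (Nat.pow 1000 (Nat.mul 2 m)) (Nat.pow a (Nat.mul 2 m)))
    (Nat.pow 1000 (Nat.succ (opk m)))

/-- denominator of the value of `F m` at `a / 1000` -/
def fd (a m : Nat) : Nat :=
  Nat.mul (Nat.mul (Nat.pow 1000 (Nat.mul 2 m)) (Nat.sub 1000 a))
    (Nat.add (Nat.pow 1000 (opk m)) (Nat.pow a (opk m)))

def Cn (N a b G : Nat) : Nat :=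
  Nat.mul (Nat.mul (Nat.mul (Nat.mul N N) (Nat.add 1000 a)) (Nat.mul G (Nat.pow 1000 N)))
    (Nat.add (Nat.add (Nat.mul 1000000 (Nat.mul (fd a N) (fd a (Nat.pred N))))
      (Nat.mul (Nat.mul 1000 b) (Nat.mul (fn a N) (fd a (Nat.pred N)))))
      (Nat.mul (Nat.mul b b) (Nat.mul (fn a N) (fn a (Nat.pred N)))))

def Cd (N a b : Nat) : Nat :=
  Nat.mul (Nat.mul 131072000 (Nat.pow b N))
    (Nat.mul 1000000 (Nat.mul (fd a N) (fd a (Nat.pred N))))

/-- the entries of the table which can be used for `N` -/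
def ents (tab : List (Nat × Nat × Nat × Nat × Nat)) (N : Nat) : List (Nat × Nat × Nat) :=
  List.rec (motive := fun _ => List (Nat × Nat × Nat)) []
    (fun e _ ih => cond (and (Nat.ble e.1 N) (Nat.ble N e.2.1))
      ((Cn N e.2.2.1 e.2.2.2.1 e.2.2.2.2, Cd N e.2.2.1 e.2.2.2.1, e.2.2.1) :: ih) ih) tab

/-- packed differences of the digits `0, ..., K` -/
def ediff (B K W : Nat) : Nat :=
  Nat.sub (Nat.land W (Nat.pred (Nat.pow (Nat.pow 2 B) (Nat.succ K))))
    (Nat.shiftLeft (Nat.land W (Nat.pred (Nat.pow (Nat.pow 2 B) K))) B)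

/-- check for one `N`; `W` is the packed `T N`, `K` is half the degree -/
def chkN (B L0 : Nat) (tab : List (Nat × Nat × Nat × Nat × Nat)) (N K W : Nat) : Bool :=
  chk B L0 (cond (Nat.blt N 142) (Nat.pow 10 23) 0) (ents tab N) 32
    (Nat.shiftRight (ediff B K W) (Nat.mul 48 B)) 48 (Nat.sub K 47)

/-- main loop: `n`, half degree `K` of `T n`, packed `T n` -/
def loop (B L0 Mx lo : Nat) (tab : List (Nat × Nat × Nat × Nat × Nat)) (fuel : Nat) :
    Nat → Nat → Nat → Bool :=
  Nat.rec (motive := fun _ => Nat → Nat → Nat → Bool) (fun _ _ _ => true) (fun _ ih n K W =>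
    force (Nat.succ n) fun n' =>
    force (Nat.add K (Nat.div (Nat.sub (Nat.sub (Nat.mul 2 n') (opk n')) 1) 2)) fun K' =>
    force (Nat.land (Nat.mul W (Fz (Nat.pow 2 B) n')) (Nat.pred (Nat.pow (Nat.pow 2 B) Mx))) fun W' =>
    and (Nat.ble (Nat.succ K') Mx)
      (and (cond (Nat.blt n' lo) true (chkN B L0 tab n' K' W')) (ih n' K' W'))) fuel

end

end Pool.Agent.H37.UM.KK
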