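import Pool.Agent.H37.UM.KKb
import Pool.Agent.H37.UM.Tab

/-!
# Kernel run 2 for the module KK
-/

set_option maxRecDepth 100000

namespace Pool.Agent.H37.UM.KK

theorem run2 : loop 846 256 7092 126 ktab (Nat.sub 146 125) 125 (HK 125) (W0 846 7092 125) = true := by
  decide +kernel

end Pool.Agent.H37.UM.KK
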