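import Pool.Agent.H37.UM.KKb
import Pool.Agent.H37.UM.Tab

/-!
# Kernel run 3 for the module KK
-/

set_option maxRecDepth 100000

namespace Pool.Agent.H37.UM.KK

theorem run3 : loop 947 256 8533 147 ktab (Nat.sub 160 146) 146 (HK 146) (W0 947 8533 146) = true := by
  decide +kernel

end Pool.Agent.H37.UM.KK
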