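import Pool.Agent.H37.UM.KKb
import Pool.Agent.H37.UM.Tab

/-!
# Kernel run 4 for the module KK
-/

set_option maxRecDepth 100000

namespace Pool.Agent.H37.UM.KK

theorem run4 : loop 1028 256 9700 161 ktab (Nat.sub 171 160) 160 (HK 160) (W0 1028 9700 160) = true := by
  decide +kernel

end Pool.Agent.H37.UM.KK
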