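import Pool.Agent.H37.UM.KKr01
import Pool.Agent.H37.UM.KKb
import Pool.Agent.H37.UM.Tab

/-!
# Kernel run 5 for the module KK
-/

set_option maxRecDepth 100000

namespace Pool.Agent.H37.UM.KK

theorem run5 : loop 1095 256 10790 172 ktab (Nat.sub 180 171) 171 (HK 171) (W0 1095 10790 171) = true := by
  decide +kernel

end Pool.Agent.H37.UM.KK
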