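import Pool.Agent.H37.UM.KKr02
import Pool.Agent.H37.UM.KKb
import Pool.Agent.H37.UM.Tab

/-!
# Kernel run 6 for the module KK
-/

set_option maxRecDepth 100000

namespace Pool.Agent.H37.UM.KK

theorem run6 : loop 1156 256 11767 181 ktab (Nat.sub 188 180) 180 (HK 180) (W0 1156 11767 180) = true := by
  decide +kernel

end Pool.Agent.H37.UM.KK
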