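import Pool.Agent.H37.UM.KKr03
import Pool.Agent.H37.UM.KKb
import Pool.Agent.H37.UM.Tab

/-!
# Kernel run 7 for the module KK
-/

set_option maxRecDepth 100000

namespace Pool.Agent.H37.UM.KK

theorem run7 : loop 1209 256 12626 189 ktab (Nat.sub 195 188) 188 (HK 188) (W0 1209 12626 188) = true := by
  decide +kernel

end Pool.Agent.H37.UM.KK
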