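import Pool.Agent.H37.UM.KKr04
import Pool.Agent.H37.UM.KKb
import Pool.Agent.H37.UM.Tab

/-!
# Kernel run 8 for the module KK
-/

set_option maxRecDepth 100000

namespace Pool.Agent.H37.UM.KK

theorem run8 : loop 1255 256 13429 196 ktab (Nat.sub 201 195) 195 (HK 195) (W0 1255 13429 195) = true := by
  decide +kernel

end Pool.Agent.H37.UM.KK
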