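import Pool.Agent.H37.UM.KKr05
import Pool.Agent.H37.UM.KKb
import Pool.Agent.H37.UM.Tab

/-!
# Kernel run 9 for the module KK
-/

set_option maxRecDepth 100000

namespace Pool.Agent.H37.UM.KK

theorem run9 : loop 1293 256 14115 202 ktab (Nat.sub 206 201) 201 (HK 201) (W0 1293 14115 201) = true := by
  decide +kernel

end Pool.Agent.H37.UM.KK
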