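import Pool.Agent.H37.UM.KKr06
import Pool.Agent.H37.UM.KKb
import Pool.Agent.H37.UM.Tab

/-!
# Kernel run 10 for the module KK
-/

set_option maxRecDepth 100000

namespace Pool.Agent.H37.UM.KK

theorem run10 : loop 1331 256 14785 207 ktab (Nat.sub 211 206) 206 (HK 206) (W0 1331 14785 206) = true := by
  decide +kernel

end Pool.Agent.H37.UM.KK
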