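import Pool.Agent.H37.UM.KKr08
import Pool.Agent.H37.UM.KKb
import Pool.Agent.H37.UM.Tab

/-!
# Kernel run 12 for the module KK
-/

set_option maxRecDepth 100000

namespace Pool.Agent.H37.UM.KK

theorem run12 : loop 1393 256 15925 216 ktab (Nat.sub 219 215) 215 (HK 215) (W0 1393 15925 215) = true := by
  decide +kernel

end Pool.Agent.H37.UM.KK
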