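import Pool.Agent.H37.UM.KKr09
import Pool.Agent.H37.UM.KKb
import Pool.Agent.H37.UM.Tab

/-!
# Kernel run 13 for the module KK
-/

set_option maxRecDepth 100000

namespace Pool.Agent.H37.UM.KK

theorem run13 : loop 1425 256 16504 220 ktab (Nat.sub 223 219) 219 (HK 219) (W0 1425 16504 219) = true := by
  decide +kernel

end Pool.Agent.H37.UM.KK
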