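import Pool.Agent.H37.UM.KKr10
import Pool.Agent.H37.UM.KKb
import Pool.Agent.H37.UM.Tab

/-!
# Kernel run 14 for the module KK
-/

set_option maxRecDepth 100000

namespace Pool.Agent.H37.UM.KK

theorem run14 : loop 1456 256 17118 224 ktab (Nat.sub 227 223) 223 (HK 223) (W0 1456 17118 223) = true := by
  decide +kernel

end Pool.Agent.H37.UM.KK
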