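import Pool.Agent.H37.UM.KKr11
import Pool.Agent.H37.UM.KKb
import Pool.Agent.H37.UM.Tab

/-!
# Kernel run 15 for the module KK
-/

set_option maxRecDepth 100000

namespace Pool.Agent.H37.UM.KK

theorem run15 : loop 1479 256 17603 228 ktab (Nat.sub 230 227) 227 (HK 227) (W0 1479 17603 227) = true := by
  decide +kernel

end Pool.Agent.H37.UM.KK
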