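import Pool.Agent.H37.UM.KKr12
import Pool.Agent.H37.UM.KKb
import Pool.Agent.H37.UM.Tab

/-!
# Kernel run 16 for the module KK
-/

set_option maxRecDepth 100000

namespace Pool.Agent.H37.UM.KK

theorem run16 : loop 1503 256 18051 231 ktab (Nat.sub 233 230) 230 (HK 230) (W0 1503 18051 230) = true := by
  decide +kernel

end Pool.Agent.H37.UM.KK
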