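import Pool.Agent.H37.UM.KKr13
import Pool.Agent.H37.UM.KKb
import Pool.Agent.H37.UM.Tab

/-!
# Kernel run 17 for the module KK
-/

set_option maxRecDepth 100000

namespace Pool.Agent.H37.UM.KK

theorem run17 : loop 1527 256 18549 234 ktab (Nat.sub 236 233) 233 (HK 233) (W0 1527 18549 233) = true := by
  decide +kernel

end Pool.Agent.H37.UM.KK
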