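import Pool.Agent.H37.UM.KKr14
import Pool.Agent.H37.UM.KKb
import Pool.Agent.H37.UM.Tab

/-!
# Kernel run 18 for the module KK
-/

set_option maxRecDepth 100000

namespace Pool.Agent.H37.UM.KK

theorem run18 : loop 1550 256 18964 237 ktab (Nat.sub 239 236) 236 (HK 236) (W0 1550 18964 236) = true := by
  decide +kernel

end Pool.Agent.H37.UM.KK
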