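import Pool.Agent.H37.UM.KKr15
import Pool.Agent.H37.UM.KKb
import Pool.Agent.H37.UM.Tab

/-!
# Kernel run 19 for the module KK
-/

set_option maxRecDepth 100000

namespace Pool.Agent.H37.UM.KK

theorem run19 : loop 1574 256 19497 240 ktab (Nat.sub 242 239) 239 (HK 239) (W0 1574 19497 239) = true := by
  decide +kernel

end Pool.Agent.H37.UM.KK
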