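import Pool.Agent.H37.UM.Stmts
import Pool.Agent.H37.UM.KKa

/-!
# Soundness of the kernel functions of the module KK
-/

set_option autoImplicit false

namespace Pool.Agent.H37.UM.KK

open Finset

lemma force_eq {β : Type} (x : ℕ) (f : ℕ → β) : force x f = f x := by cases x <;> rfl

lemma rep_eq (z n : ℕ) (hz : 2 ≤ z) : rep z n = ∑ k ∈ range n, z ^ k := by
  rw [Nat.geomSum_eq hz]
  rfl

lemma rep_succ (z n : ℕ) (hz : 2 ≤ z) : rep z (n + 1) = 1 + z * rep z n := by
  rw [rep_eq z _ hz, rep_eq z _ hz, Finset.sum_range_succ', Finset.mul_sum, pow_zero, add_comm]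
  congr 1
  apply Finset.sum_congr rfl
  intro k _
  rw [pow_succ]
  ring

/-- digit -/
def dig (B x i : ℕ) : ℕ := x / (2 ^ B) ^ i % 2 ^ B

lemma two_pow_pred (B : ℕ) (hB : 1 ≤ B) : 2 ^ B = 2 * 2 ^ (B - 1) := by
  obtain ⟨b, rfl⟩ : ∃ b, B = b + 1 := ⟨B - 1, by omega⟩
  rw [pow_succ, mul_comm]
  rfl

lemma two_le_two_pow (B : ℕ) (hB : 1 ≤ B) : 2 ≤ 2 ^ B := by
  rw [two_pow_pred B hB]
  have : 0 < 2 ^ (B - 1) := by positivity
  omega

lemma core (B x n c t : ℕ) (hB : 1 ≤ B) (ht : t = 2 ^ (B - 1)) (hc : c ≤ t)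
    (hx : x % 2 ^ B < t)
    (h : (x + (t - c) * rep (2 ^ B) (n + 1)) &&& (t * rep (2 ^ B) (n + 1)) =
      t * rep (2 ^ B) (n + 1)) :
    c ≤ x % 2 ^ B ∧ (x / 2 ^ B + (t - c) * rep (2 ^ B) n) &&& (t * rep (2 ^ B) n) =
      t * rep (2 ^ B) n := by
  have hz := two_le_two_pow B hB
  have hzt : 2 ^ B = 2 * t := by rw [ht]; exact two_pow_pred B hB
  have htpos : 0 < t := by rw [ht]; positivity
  rw [rep_succ _ _ hz] at h
  set z := 2 ^ B with hzdef
  have e1 : x + (t - c) * (1 + z * rep z n) = (x % z + (t - c)) + z * (x / z + (t - c) * rep z n) := by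
    have := Nat.mod_add_div x z
    nlinarith
  have e2 : t * (1 + z * rep z n) = t + z * (t * rep z n) := by ring
  rw [e1, e2] at h
  have l1 : x % z + (t - c) < z := by omega
  have l2 : t < z := by omega
  have m1 : ((x % z + (t - c) + z * (x / z + (t - c) * rep z n)) &&& (t + z * (t * rep z n))) %
      2 ^ B = (t + z * (t * rep z n)) % 2 ^ B := by rw [h]
  have m2 : ((x % z + (t - c) + z * (x / z + (t - c) * rep z n)) &&& (t + z * (t * rep z n))) /
      2 ^ B = (t + z * (t * rep z n)) / 2 ^ B := by rw [h]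
  rw [Nat.and_mod_two_pow] at m1
  rw [Nat.and_div_two_pow] at m2
  rw [← hzdef] at m1 m2
  rw [Nat.add_mul_mod_self_left, Nat.add_mul_mod_self_left, Nat.mod_eq_of_lt l1,
    Nat.mod_eq_of_lt l2] at m1
  rw [Nat.add_mul_div_left _ _ (by omega), Nat.add_mul_div_left _ _ (by omega),
    Nat.div_eq_of_lt l1, Nat.div_eq_of_lt l2, zero_add, zero_add] at m2
  refine ⟨?_, m2⟩
  have : (x % z + (t - c)) &&& t ≤ x % z + (t - c) := Nat.and_le_left
  rw [m1] at this
  omega

lemma tst_core (B t c : ℕ) (hB : 1 ≤ B) (ht : t = 2 ^ (B - 1)) (hc : c ≤ t) :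
    ∀ n x : ℕ, (∀ i < n, dig B x i < t) →
    (x + (t - c) * rep (2 ^ B) n) &&& (t * rep (2 ^ B) n) = t * rep (2 ^ B) n →
    ∀ i < n, c ≤ dig B x i := by
  intro n
  induction n with
  | zero => intro x _ _ i hi; omega
  | succ n ih =>
    intro x hx h i hi
    have h0 := hx 0 (by omega)
    rw [dig, pow_zero, Nat.div_one] at h0
    obtain ⟨c1, c2⟩ := core B x n c t hB ht hc h0 h
    rcases i with _ | i
    · rw [dig, pow_zero, Nat.div_one]
      exact c1
    · have e : ∀ j, dig B x (j + 1) = dig B (x / 2 ^ B) j := by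
        intro j
        rw [dig, dig, pow_succ, mul_comm, Nat.div_div_eq_div_mul]
      rw [e]
      apply ih (x / 2 ^ B) _ c2 i (by omega)
      intro j hj
      rw [← e]
      exact hx (j + 1) (by omega)

lemma tst_sound (B x n c : ℕ) (hB : 1 ≤ B) (h : tst B x n c = true)
    (hx : ∀ i < n, dig B x i < 2 ^ (B - 1)) : ∀ i < n, c ≤ dig B x i := by
  unfold tst at h
  rw [Bool.and_eq_true] at h
  obtain ⟨h1, h2⟩ := h
  have h1' : c ≤ 2 ^ (B - 1) := Nat.le_of_ble_eq_true h1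
  have h2' := Nat.eq_of_beq_eq_true h2
  exact tst_core B _ c hB rfl h1' n x hx h2'

lemma thr_sound (Cn Cd a k k' d : ℕ) (ha : a ≤ 1000) (hk : k' ≤ k) (hCd : 0 < Cd) (ha0 : 0 < a)
    (h : thr Cn Cd a k ≤ d) : Cn * 1000 ^ k' ≤ d * (Cd * a ^ k') := by
  have h1 : Cn * 1000 ^ k / (Cd * a ^ k) + 1 ≤ d := h
  have hpos : 0 < Cd * a ^ k := by positivity
  have h2 : Cn * 1000 ^ k < d * (Cd * a ^ k) := by
    have := Nat.lt_succ_self (Cn * 1000 ^ k / (Cd * a ^ k))
    have h3 : Cn * 1000 ^ k / (Cd * a ^ k) < d := by omega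
    exact (Nat.div_lt_iff_lt_mul hpos).1 h3
  obtain ⟨s, rfl⟩ := Nat.exists_eq_add_of_le hk
  by_contra hneg
  push Not at hneg
  have h4 : a ^ s ≤ 1000 ^ s := Nat.pow_le_pow_left ha s
  have h5 : d * (Cd * a ^ k') * a ^ s ≤ Cn * 1000 ^ k' * 1000 ^ s :=
    Nat.mul_le_mul hneg.le h4
  rw [pow_add, pow_add] at h2
  have e1 : d * (Cd * (a ^ k' * a ^ s)) = d * (Cd * a ^ k') * a ^ s := by ring
  have e2 : Cn * (1000 ^ k' * 1000 ^ s) = Cn * 1000 ^ k' * 1000 ^ s := by ring
  rw [e1, e2] at h2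
  omega

lemma mx_le (a b d : ℕ) (h : mx a b ≤ d) : a ≤ d ∧ b ≤ d := by
  unfold mx at h
  cases hb : Nat.ble a b
  · rw [hb] at h
    have : ¬ a ≤ b := by
      intro h'
      rw [Nat.ble_eq_true_of_le h'] at hb
      exact Bool.noConfusion hb
    simp only [cond_false] at h
    omega
  · rw [hb] at h
    have := Nat.le_of_ble_eq_true hb
    simp only [cond_true] at h
    omega

/-- the property checked -/
def OKd (c0 : ℕ) (es : List (ℕ × ℕ × ℕ)) (k d : ℕ) : Prop :=
  c0 ≤ d ∧ ∃ e ∈ es, e.1 * 1000 ^ k ≤ d * (e.2.1 * e.2.2 ^ k)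

lemma anyE_sound (B c0 x n k : ℕ) (hB : 1 ≤ B) (es : List (ℕ × ℕ × ℕ))
    (hx : ∀ i < n, dig B x i < 2 ^ (B - 1)) (h : anyE B c0 es x n k = true) :
    ∃ e ∈ es, ∀ i < n, c0 ≤ dig B x i ∧ thr e.1 e.2.1 e.2.2 k ≤ dig B x i := by
  induction es with
  | nil => exact Bool.noConfusion h
  | cons e es ih =>
    have h' : or (force (thr e.1 e.2.1 e.2.2 k) fun t => tst B x n (mx c0 t))
      (anyE B c0 es x n k) = true := h
    rw [Bool.or_eq_true] at h'
    rcases h' with h' | h'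
    · rw [force_eq] at h'
      refine ⟨e, by simp, ?_⟩
      intro i hi
      exact mx_le _ _ _ (tst_sound B x n _ hB h' hx i hi)
    · obtain ⟨e', he', h''⟩ := ih h'
      exact ⟨e', by simp [he'], h''⟩

lemma dig_mod (B x h i : ℕ) (hi : i < h) : dig B (x % (2 ^ B) ^ h) i = dig B x i := by
  have e : (2 ^ B) ^ h = (2 ^ B) ^ i * (2 ^ B) ^ (h - i) := by
    rw [← pow_add]
    congr 1
    omega
  rw [dig, dig, e, Nat.mod_mul_right_div_self]
  apply Nat.mod_mod_of_dvd
  exact dvd_pow_self _ (by omega)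

lemma dig_shift (B x h i : ℕ) : dig B (Nat.shiftRight x (Nat.mul B h)) i = dig B x (h + i) := by
  have e : Nat.shiftRight x (Nat.mul B h) = x / (2 ^ B) ^ h := by
    change x >>> (B * h) = _
    rw [Nat.shiftRight_eq_div_pow, pow_mul]
  rw [dig, dig, e, Nat.div_div_eq_div_mul, ← pow_add]

lemma land_mod (B x h : ℕ) : Nat.land x (Nat.pred (Nat.pow (Nat.pow 2 B) h)) = x % (2 ^ B) ^ h := by
  change x &&& ((2 ^ B) ^ h - 1) = _
  rw [← pow_mul, Nat.and_two_pow_sub_one_eq_mod]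

lemma chk_sound (B L0 c0 : ℕ) (es : List (ℕ × ℕ × ℕ)) (hB : 1 ≤ B)
    (hes : ∀ e ∈ es, e.2.2 ≤ 1000 ∧ 0 < e.2.2 ∧ 0 < e.2.1) (fuel : ℕ) :
    ∀ x lo n : ℕ, chk B L0 c0 es fuel x lo n = true → (∀ i < n, dig B x i < 2 ^ (B - 1)) →
      ∀ i < n, OKd c0 es (lo + i) (dig B x i) := by
  induction fuel with
  | zero => intro x lo n h; exact Bool.noConfusion h
  | succ fuel ih =>
    intro x lo n h hx i hi
    have h' : cond (and (Nat.ble n L0) (anyE B c0 es x n (Nat.pred (Nat.add lo n)))) true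
      (cond (Nat.ble n 1) false
        (force (Nat.div n 2) fun h =>
          and (chk B L0 c0 es fuel (Nat.land x (Nat.pred (Nat.pow (Nat.pow 2 B) h))) lo h)
            (chk B L0 c0 es fuel (Nat.shiftRight x (Nat.mul B h)) (Nat.add lo h)
              (Nat.sub n h)))) = true := h
    cases hc : and (Nat.ble n L0) (anyE B c0 es x n (Nat.pred (Nat.add lo n)))
    · rw [hc] at h'
      simp only [cond_false] at h'
      cases hn1 : Nat.ble n 1
      · rw [hn1, cond_false, force_eq, Bool.and_eq_true] at h'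
        have hn2 : 1 < n := by
          by_contra hle
          rw [Nat.ble_eq_true_of_le (by omega)] at hn1
          exact Bool.noConfusion hn1
        obtain ⟨a1, a2⟩ := h'
        have hd : Nat.div n 2 = n / 2 := rfl
        rw [hd] at a1 a2
        rw [land_mod] at a1
        by_cases hi2 : i < n / 2
        · have := ih _ _ _ a1 (fun j hj => by rw [dig_mod B x _ j hj]; exact hx j (by omega)) i hi2
          rwa [dig_mod B x _ i hi2] at this
        · obtain ⟨j, rfl⟩ : ∃ j, i = n / 2 + j := ⟨i - n / 2, by omega⟩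
          have hsub : Nat.sub n (n / 2) = n - n / 2 := rfl
          rw [hsub] at a2
          have := ih _ _ _ a2 (fun l hl => by rw [dig_shift]; exact hx _ (by omega)) j (by omega)
          rw [dig_shift] at this
          have e : Nat.add lo (n / 2) + j = lo + (n / 2 + j) := by
            change lo + n / 2 + j = _
            ring
          rwa [e] at this
      · rw [hn1, cond_true] at h'
        exact Bool.noConfusion h'
    · rw [Bool.and_eq_true] at hc
      obtain ⟨e, he, hall⟩ := anyE_sound B c0 x n _ hB es hx hc.2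
      obtain ⟨b1, b2⟩ := hall i hi
      refine ⟨b1, e, he, ?_⟩
      obtain ⟨c1, c2, c3⟩ := hes e he
      refine thr_sound _ _ _ _ _ _ c1 ?_ c3 c2 b2
      change lo + i ≤ lo + n - 1
      omega

/-! ### digit sums -/

lemma dsum_lt (z : ℕ) (t : ℕ → ℕ) (ht : ∀ i, t i < z) (n : ℕ) :
    ∑ i ∈ range n, t i * z ^ i < z ^ n := by
  have hz : 0 < z := lt_of_le_of_lt (Nat.zero_le _) (ht 0)
  induction n with
  | zero => simp
  | succ n ih =>
    rw [Finset.sum_range_succ, pow_succ]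
    have h1 : t n * z ^ n ≤ (z - 1) * z ^ n := Nat.mul_le_mul_right _ (by have := ht n; omega)
    have h2 : (z - 1) * z ^ n + z ^ n = z ^ n * z := by
      obtain ⟨y, rfl⟩ : ∃ y, z = y + 1 := ⟨z - 1, by omega⟩
      simp only [Nat.add_sub_cancel]
      ring
    omega

lemma dsum_mod (z : ℕ) (t : ℕ → ℕ) (ht : ∀ i, t i < z) (n j : ℕ) (hj : j ≤ n) :
    (∑ i ∈ range n, t i * z ^ i) % z ^ j = ∑ i ∈ range j, t i * z ^ i := by
  have e : ∑ i ∈ range n, t i * z ^ i =
      ∑ i ∈ range j, t i * z ^ i + z ^ j * ∑ i ∈ range (n - j), t (j + i) * z ^ i := by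
    obtain ⟨m, rfl⟩ := Nat.exists_eq_add_of_le hj
    rw [Finset.sum_range_add, Nat.add_sub_cancel_left, Finset.mul_sum]
    congr 1
    apply Finset.sum_congr rfl
    intro i _
    rw [pow_add]
    ring
  rw [e, Nat.add_mul_mod_self_left, Nat.mod_eq_of_lt (dsum_lt z t ht j)]

lemma dsum_dig (B : ℕ) (t : ℕ → ℕ) (ht : ∀ i, t i < 2 ^ B) (n k : ℕ) (hk : k < n) :
    dig B (∑ i ∈ range n, t i * (2 ^ B) ^ i) k = t k := by
  have hz : 0 < 2 ^ B := by positivity
  have e : (∑ i ∈ range n, t i * (2 ^ B) ^ i) =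
      ∑ i ∈ range k, t i * (2 ^ B) ^ i + (2 ^ B) ^ k * (t k + 2 ^ B *
        ∑ i ∈ range (n - k - 1), t (k + 1 + i) * (2 ^ B) ^ i) := by
    obtain ⟨m, rfl⟩ : ∃ m, n = k + 1 + m := ⟨n - k - 1, by omega⟩
    rw [Finset.sum_range_add, Finset.sum_range_succ]
    have : k + 1 + m - k - 1 = m := by omega
    rw [this, mul_add, Finset.mul_sum, Finset.mul_sum]
    rw [add_assoc]
    congr 1
    rw [mul_comm (t k)]
    congr 1
    apply Finset.sum_congr rfl
    intro i _
    rw [pow_add, pow_succ]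
    ring
  rw [dig, e, Nat.add_mul_div_left _ _ (by positivity), Nat.div_eq_of_lt (dsum_lt _ t ht k),
    zero_add, Nat.add_mul_mod_self_left, Nat.mod_eq_of_lt (ht k)]

lemma ediff_sound (B K W n : ℕ) (t : ℕ → ℕ) (hB : 1 ≤ B) (ht : ∀ i, t i < 2 ^ (B - 1))
    (hK : K + 1 ≤ n) (hmono : ∀ i, i < K → t i ≤ t (i + 1))
    (hW : W = ∑ i ∈ range n, t i * (2 ^ B) ^ i) :
    ∀ i, i + 1 ≤ K → dig B (ediff B K W) (i + 1) = t (i + 1) - t i := by
  have hB2 := two_pow_pred B hB
  have ht' : ∀ i, t i < 2 ^ B := fun i => by have := ht i; omega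
  have e1 : Nat.land W (Nat.pred (Nat.pow (Nat.pow 2 B) (Nat.succ K))) =
      ∑ i ∈ range (K + 1), t i * (2 ^ B) ^ i := by
    rw [land_mod, hW, dsum_mod _ t ht' n _ (by omega)]
  have e2 : Nat.land W (Nat.pred (Nat.pow (Nat.pow 2 B) K)) =
      ∑ i ∈ range K, t i * (2 ^ B) ^ i := by
    rw [land_mod, hW, dsum_mod _ t ht' n _ (by omega)]
  set d : ℕ → ℕ := fun i => match i with
    | 0 => t 0
    | j + 1 => t (j + 1) - t j with hd
  have e3 : ∑ i ∈ range (K + 1), t i * (2 ^ B) ^ i =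
      ∑ i ∈ range (K + 1), d i * (2 ^ B) ^ i + (∑ i ∈ range K, t i * (2 ^ B) ^ i) * 2 ^ B := by
    rw [Finset.sum_range_succ', Finset.sum_range_succ' (fun i => d i * (2 ^ B) ^ i),
      Finset.sum_mul]
    have : ∑ k ∈ range K, t (k + 1) * (2 ^ B) ^ (k + 1) =
        ∑ k ∈ range K, d (k + 1) * (2 ^ B) ^ (k + 1) +
        ∑ k ∈ range K, t k * (2 ^ B) ^ k * 2 ^ B := by
      rw [← Finset.sum_add_distrib]
      apply Finset.sum_congr rfl
      intro k hk
      have := hmono k (Finset.mem_range.1 hk)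
      have e : t (k + 1) = d (k + 1) + t k := by
        simp only [hd]
        omega
      rw [e, pow_succ]
      ring
    rw [this]
    simp only [hd]
    ring
  have e4 : ediff B K W = ∑ i ∈ range (K + 1), d i * (2 ^ B) ^ i := by
    unfold ediff
    rw [e1, e2]
    change _ - (_ <<< B) = _
    rw [Nat.shiftLeft_eq, e3]
    omega
  intro i hi
  have hdlt : ∀ i, d i < 2 ^ B := by
    intro i
    rcases i with _ | i
    · exact ht' 0
    · have := ht' (i + 1)
      simp only [hd]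
      omega
  rw [e4, dsum_dig B d hdlt _ _ (by omega)]

end Pool.Agent.H37.UM.KK
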