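import Pool.Agent.H37.UM.KKs

/-!
# Module KK: the packed form of `T n`
-/

set_option autoImplicit false

namespace Pool.Agent.H37.UM.KK

open Finset

/-- `F m` as a polynomial over `ℕ` -/
noncomputable def Fp (m : ℕ) : Polynomial ℕ :=
  (∑ i ∈ range (op m), Polynomial.X ^ i) *
    ∏ a ∈ range (padicValNat 2 m), (1 + Polynomial.X ^ (2 ^ (a + 1) * op m))

/-- `T n` as a polynomial over `ℕ` -/
noncomputable def Tp (n : ℕ) : Polynomial ℕ := ∏ m ∈ Ioc 0 n, Fp m

noncomputable def φ : Polynomial ℕ →+* PowerSeries ℤ :=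
  (Polynomial.coeToPowerSeries.ringHom (R := ℤ)).comp (Polynomial.mapRingHom (Nat.castRingHom ℤ))

lemma φ_X : φ Polynomial.X = PowerSeries.X := by
  simp [φ]

lemma coeff_φ (p : Polynomial ℕ) (k : ℕ) : PowerSeries.coeff k (φ p) = ((p.coeff k : ℕ) : ℤ) := by
  simp [φ]

lemma φ_F (m : ℕ) : φ (Fp m) = F m := by
  rw [Fp, F, iv]
  simp only [map_mul, map_sum, map_prod, map_pow, map_add, map_one, φ_X]

lemma φ_T (n : ℕ) : φ (Tp n) = T n := by
  rw [Tp, T, U, map_prod]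
  exact Finset.prod_congr rfl (fun m _ => φ_F m)

lemma coeff_T (n k : ℕ) : PowerSeries.coeff k (T n) = (((Tp n).coeff k : ℕ) : ℤ) := by
  rw [← φ_T, coeff_φ]

lemma Tp_succ (n : ℕ) : Tp (n + 1) = Tp n * Fp (n + 1) := by
  have : Ioc 0 (n + 1) = insert (n + 1) (Ioc 0 n) := by
    ext x; simp only [Finset.mem_Ioc, Finset.mem_insert]; omega
  rw [Tp, this, Finset.prod_insert (by simp), Tp, mul_comm]

lemma eval_Fp_one (hO : OPStmt) (m : ℕ) (hm : 1 ≤ m) : (Fp m).eval 1 = m := by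
  rw [Fp, Polynomial.eval_mul, Polynomial.eval_finsetSum, Polynomial.eval_prod]
  simp only [Polynomial.eval_pow, Polynomial.eval_X, one_pow, Polynomial.eval_add,
    Polynomial.eval_one, Finset.sum_const, Finset.card_range, Finset.prod_const, smul_eq_mul,
    mul_one]
  have := (hO.1 m hm).2.2.2
  conv_rhs => rw [this]
  rw [mul_comm]
  norm_num

lemma eval_Tp_one (hO : OPStmt) (n : ℕ) : (Tp n).eval 1 = n.factorial := by
  induction n with
  | zero => simp [Tp]
  | succ n ih =>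
    rw [Tp_succ, Polynomial.eval_mul, ih, eval_Fp_one hO _ (by omega), Nat.factorial_succ, mul_comm]

lemma coeff_Tp_le (hO : OPStmt) (n k : ℕ) : (Tp n).coeff k ≤ n.factorial := by
  rw [← eval_Tp_one hO n]
  by_cases hk : k ≤ (Tp n).natDegree
  · rw [Polynomial.eval_eq_sum_range]
    have := Finset.single_le_sum (f := fun i => (Tp n).coeff i * 1 ^ i) (s := range ((Tp n).natDegree + 1))
      (fun i _ => Nat.zero_le _) (Finset.mem_range.2 (Nat.lt_succ_of_le hk))
    simpa using this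
  · rw [Polynomial.coeff_eq_zero_of_natDegree_lt (by omega)]
    exact Nat.zero_le _

lemma prod_id {R : Type*} [CommRing R] (x : R) (p v : ℕ) :
    (∏ a ∈ range v, (1 + x ^ (2 ^ (a + 1) * p))) * (1 - x ^ (2 * p)) = 1 - x ^ (2 ^ (v + 1) * p) := by
  induction v with
  | zero => simp
  | succ v ih =>
    rw [Finset.prod_range_succ, mul_right_comm, ih]
    have : x ^ (2 ^ (v + 1 + 1) * p) = x ^ (2 ^ (v + 1) * p) * x ^ (2 ^ (v + 1) * p) := by
      rw [← pow_add]
      congr 1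
      ring
    rw [this]
    ring

lemma F_id {R : Type*} [CommRing R] (hO : OPStmt) (x : R) (m : ℕ) (hm : 1 ≤ m) :
    (∑ i ∈ range (op m), x ^ i) * (∏ a ∈ range (padicValNat 2 m), (1 + x ^ (2 ^ (a + 1) * op m))) *
      ((1 - x) * (1 + x ^ op m)) = 1 - x ^ (2 * m) := by
  have h1 := prod_id x (op m) (padicValNat 2 m)
  have h2 : (∑ i ∈ range (op m), x ^ i) * (1 - x) = 1 - x ^ op m := geom_sum_mul_neg x (op m)
  have h3 : 2 ^ (padicValNat 2 m + 1) * op m = 2 * m := by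
    have := (hO.1 m hm).2.2.2
    conv_rhs => rw [this]
    ring
  rw [h3] at h1
  rw [← h1]
  have h4 : x ^ (2 * op m) = x ^ op m * x ^ op m := by
    rw [two_mul, pow_add]
  rw [h4]
  linear_combination (∏ a ∈ range (padicValNat 2 m), (1 + x ^ (2 ^ (a + 1) * op m))) *
    (1 + x ^ op m) * h2

lemma opk_eq (hO : OPStmt) (m : ℕ) (hm : 1 ≤ m) (hm2 : m < 256) : opk m = op m := by
  obtain ⟨h1, h2, _, h4⟩ := hO.1 m hm
  set v := padicValNat 2 m with hv
  have hv8 : v < 8 := by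
    by_contra hge
    push Not at hge
    have : 2 ^ 8 ≤ 2 ^ v := Nat.pow_le_pow_right (by norm_num) hge
    have h5 : 2 ^ v * 1 ≤ 2 ^ v * op m := Nat.mul_le_mul_left _ h2
    rw [← h4] at h5
    omega
  have hg : Nat.gcd m 256 = 2 ^ v := by
    have e : (256 : ℕ) = 2 ^ v * 2 ^ (8 - v) := by
      rw [← pow_add]
      have : v + (8 - v) = 8 := by omega
      rw [this]
      norm_num
    have hc : Nat.Coprime (op m) (2 ^ (8 - v)) := by
      apply Nat.Coprime.pow_right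
      exact Nat.coprime_two_right.2 h1
    conv_lhs => rw [h4, e]
    rw [Nat.gcd_mul_left, hc, mul_one]
  have : opk m = m / Nat.gcd m 256 := rfl
  rw [this, hg]
  conv_lhs => rw [h4]
  exact Nat.mul_div_cancel_left _ (by positivity)

lemma eval_Fp (hO : OPStmt) (z m : ℕ) (hz : 2 ≤ z) (hm : 1 ≤ m) (hm2 : m < 256) :
    (Fp m).eval z = Fz z m := by
  have e : ((Fp m).eval z : ℕ) * ((z - 1) * (z ^ op m + 1)) = z ^ (2 * m) - 1 := by
    have h1 : 1 ≤ z ^ (2 * m) := Nat.one_le_pow _ _ (by omega)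
    have h := F_id hO (z : ℤ) m hm
    rw [Fp, Polynomial.eval_mul, Polynomial.eval_finsetSum, Polynomial.eval_prod]
    simp only [Polynomial.eval_pow, Polynomial.eval_X, Polynomial.eval_add,
      Polynomial.eval_one]
    zify [h1, (by omega : 1 ≤ z)]
    linear_combination -h
  have e2 : Fz z m = (z ^ (2 * m) - 1) / ((z - 1) * (z ^ opk m + 1)) := rfl
  rw [e2, opk_eq hO m hm hm2, ← e]
  symm
  apply Nat.mul_div_cancel
  have : 0 < z - 1 := by omega
  positivity

lemma dg_succ (n : ℕ) : dg (n + 1) = dg n + (2 * (n + 1) - op (n + 1) - 1) := by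
  rw [dg, dU, dg, dU]
  have : Ioc 0 (n + 1) = insert (n + 1) (Ioc 0 n) := by
    ext x; simp only [Finset.mem_Ioc, Finset.mem_insert]; omega
  rw [this, Finset.sum_insert (by simp), add_comm]

/-- the packed value -/
noncomputable def Wn (B Mx n : ℕ) : ℕ := ((Tp n).eval (2 ^ B)) % (2 ^ B) ^ Mx

lemma Wn_eq (hO : OPStmt) (B Mx n : ℕ) (hf : n.factorial < 2 ^ B) :
    Wn B Mx n = ∑ i ∈ range Mx, (Tp n).coeff i * (2 ^ B) ^ i := by
  have h1 : (Tp n).eval (2 ^ B) =
      ∑ i ∈ range ((Tp n).natDegree + 1 + Mx), (Tp n).coeff i * (2 ^ B) ^ i :=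
    Polynomial.eval_eq_sum_range' (by omega) _
  rw [Wn, h1, dsum_mod (2 ^ B) (fun i => (Tp n).coeff i) _ _ _ (by omega)]
  intro i
  exact lt_of_le_of_lt (coeff_Tp_le hO n i) hf

lemma chkN_sound (hO : OPStmt) (hT : TSUStmt) (B L0 Mx N K : ℕ)
    (tab : List (ℕ × ℕ × ℕ × ℕ × ℕ)) (hB : 1 ≤ B) (hf : N.factorial < 2 ^ (B - 1)) (hN : 7 ≤ N)
    (hK : 2 * K = dg N) (hM : K + 1 ≤ Mx) (hK48 : 48 ≤ K)
    (hes : ∀ e ∈ ents tab N, e.2.2 ≤ 1000 ∧ 0 < e.2.2 ∧ 0 < e.2.1)
    (h : chkN B L0 tab N K (Wn B Mx N) = true) :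
    ∀ k, 48 ≤ k → 2 * k ≤ dg N →
      OKd (cond (Nat.blt N 142) (Nat.pow 10 23) 0) (ents tab N) k (df (T N) k).toNat := by
  have hB2 := two_pow_pred B hB
  have hf2 : N.factorial < 2 ^ B := by omega
  have hmono : ∀ i, i < K → (Tp N).coeff i ≤ (Tp N).coeff (i + 1) := by
    intro i hi
    have := (hT N hN).mono (i + 1) (by omega)
    have e : df (T N) (i + 1) = PowerSeries.coeff (i + 1) (T N) - PowerSeries.coeff i (T N) := by
      have e1 : (1 - PowerSeries.X) * T N = T N - PowerSeries.X * T N := by ring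
      rw [df, e1, map_sub, PowerSeries.coeff_succ_X_mul]
    rw [e, coeff_T, coeff_T] at this
    have h2 : (((Tp N).coeff i : ℕ) : ℤ) ≤ (((Tp N).coeff (i + 1) : ℕ) : ℤ) := by linarith
    exact_mod_cast h2
  have hed := ediff_sound B K (Wn B Mx N) Mx (fun i => (Tp N).coeff i) hB
    (fun i => lt_of_le_of_lt (coeff_Tp_le hO N i) hf) hM hmono (Wn_eq hO B Mx N hf2)
  have hdf : ∀ i, i + 1 ≤ K → (df (T N) (i + 1)).toNat = dig B (ediff B K (Wn B Mx N)) (i + 1) := by
    intro i hi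
    have e : df (T N) (i + 1) = PowerSeries.coeff (i + 1) (T N) - PowerSeries.coeff i (T N) := by
      have e1 : (1 - PowerSeries.X) * T N = T N - PowerSeries.X * T N := by ring
      rw [df, e1, map_sub, PowerSeries.coeff_succ_X_mul]
    rw [hed i hi, e, coeff_T, coeff_T]
    have := hmono i (by omega)
    omega
  have hchk : chk B L0 (cond (Nat.blt N 142) (Nat.pow 10 23) 0) (ents tab N) 32
    (Nat.shiftRight (ediff B K (Wn B Mx N)) (Nat.mul 48 B)) 48 (Nat.sub K 47) = true := h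
  have hcomm : Nat.mul 48 B = Nat.mul B 48 := Nat.mul_comm 48 B
  rw [hcomm] at hchk
  have hsub : Nat.sub K 47 = K - 47 := rfl
  rw [hsub] at hchk
  have hres := chk_sound B L0 _ _ hB hes 32 _ _ _ hchk (by
    intro i hi
    rw [dig_shift]
    have e : 48 + i = (47 + i) + 1 := by omega
    rw [e, hed (47 + i) (by omega)]
    exact lt_of_le_of_lt (Nat.sub_le _ _) (lt_of_le_of_lt (coeff_Tp_le hO N _) hf))
  intro k hk hk2
  obtain ⟨i, rfl⟩ : ∃ i, k = 48 + i := ⟨k - 48, by omega⟩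
  have := hres i (by omega)
  rw [dig_shift] at this
  have e : 48 + i = (47 + i) + 1 := by omega
  rw [e] at this ⊢
  rw [hdf (47 + i) (by omega)]
  exact this

lemma loop_sound (hO : OPStmt) (B L0 Mx lo : ℕ) (tab : List (ℕ × ℕ × ℕ × ℕ × ℕ))
    (hB : 1 ≤ B) (hev : ∀ n, Even (dg n)) (fuel : ℕ) :
    ∀ n K : ℕ, 2 * K = dg n → n + fuel < 256 → loop B L0 Mx lo tab fuel n K (Wn B Mx n) = true →
      ∀ N, n < N → N ≤ n + fuel → lo ≤ N → dg N / 2 + 1 ≤ Mx ∧
        chkN B L0 tab N (dg N / 2) (Wn B Mx N) = true := by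
  induction fuel with
  | zero => intro n K _ _ _ N h1 h2; omega
  | succ fuel ih =>
    intro n K hK hn h N h1 h2 h3
    have h' : (force (Nat.succ n) fun n' =>
      force (Nat.add K (Nat.div (Nat.sub (Nat.sub (Nat.mul 2 n') (opk n')) 1) 2)) fun K' =>
      force (Nat.land (Nat.mul (Wn B Mx n) (Fz (Nat.pow 2 B) n'))
        (Nat.pred (Nat.pow (Nat.pow 2 B) Mx))) fun W' =>
      and (Nat.ble (Nat.succ K') Mx)
        (and (cond (Nat.blt n' lo) true (chkN B L0 tab n' K' W'))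
          (loop B L0 Mx lo tab fuel n' K' W'))) = true := h
    rw [force_eq, force_eq, force_eq, Bool.and_eq_true, Bool.and_eq_true] at h'
    have eK : Nat.add K (Nat.div (Nat.sub (Nat.sub (Nat.mul 2 (Nat.succ n)) (opk (Nat.succ n))) 1) 2) =
        dg (n + 1) / 2 := by
      have h5 := dg_succ n
      have h6 := opk_eq hO (n + 1) (by omega) (by omega)
      obtain ⟨c, hc⟩ := hev (n + 1)
      change K + (2 * (n + 1) - opk (n + 1) - 1) / 2 = _
      rw [h6]
      omega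
    have eW : Nat.land (Nat.mul (Wn B Mx n) (Fz (Nat.pow 2 B) (Nat.succ n)))
        (Nat.pred (Nat.pow (Nat.pow 2 B) Mx)) = Wn B Mx (n + 1) := by
      rw [land_mod]
      have h7 := eval_Fp hO (2 ^ B) (n + 1) (two_le_two_pow B hB) (by omega) (by omega)
      change Wn B Mx n * Fz (2 ^ B) (n + 1) % _ = _
      rw [← h7, Wn, Wn, Tp_succ, Polynomial.eval_mul, Nat.mod_mul_mod]
    rw [eK, eW] at h'
    obtain ⟨a1, a2, a3⟩ := h'
    rcases Nat.eq_or_lt_of_le (Nat.succ_le_of_lt h1) with h4 | h4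
    · subst h4
      refine ⟨Nat.le_of_ble_eq_true a1, ?_⟩
      cases hb : Nat.blt (Nat.succ n) lo
      · rw [hb, cond_false] at a2
        exact a2
      · have : n + 1 < lo := Nat.le_of_ble_eq_true hb
        have h3' : lo ≤ n + 1 := h3
        omega
    · have hK' : 2 * (dg (n + 1) / 2) = dg (n + 1) := by
        obtain ⟨c, hc⟩ := hev (n + 1)
        omega
      exact ih (n + 1) (dg (n + 1) / 2) hK' (by omega) a3 N h4 (by omega) h3

lemma run_sound (hO : OPStmt) (hU : UUStmt) (hT : TSUStmt) (B L0 Mx lo hi : ℕ)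
    (tab : List (ℕ × ℕ × ℕ × ℕ × ℕ)) (hB : 1 ≤ B) (hf : hi.factorial < 2 ^ (B - 1)) (hMx : 1 ≤ Mx)
    (hlo : 63 ≤ lo) (hhi : hi < 250)
    (hes : ∀ N, ∀ e ∈ ents tab N, e.2.2 ≤ 1000 ∧ 0 < e.2.2 ∧ 0 < e.2.1)
    (h : loop B L0 Mx lo tab hi 0 0 1 = true) :
    ∀ N k, lo ≤ N → N ≤ hi → 48 ≤ k → 2 * k ≤ dg N →
      OKd (cond (Nat.blt N 142) (Nat.pow 10 23) 0) (ents tab N) k (df (T N) k).toNat := by
  intro N k h1 h2 h3 h4
  have hev : ∀ n, Even (dg n) := fun n => hU.2.2.2.2.2.2 0 n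
  have e0 : Wn B Mx 0 = 1 := by
    rw [Wn, Tp]
    simp only [Finset.Ioc_self, Finset.prod_empty, Polynomial.eval_one]
    apply Nat.mod_eq_of_lt
    apply Nat.one_lt_pow (by omega)
    have := two_le_two_pow B hB
    omega
  have := loop_sound hO B L0 Mx lo tab hB hev hi 0 0 (by simp [dg, dU]) (by omega) (by rw [e0]; exact h) N
    (by omega) (by omega) h1
  obtain ⟨c, hc⟩ := hev N
  have hfN : N.factorial < 2 ^ (B - 1) := lt_of_le_of_lt (Nat.factorial_le h2) hf
  exact chkN_sound hO hT B L0 Mx N (dg N / 2) tab hB hfN (by omega) (by omega) this.1 (by omega)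
    (hes N) this.2 k h3 h4

end Pool.Agent.H37.UM.KK
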