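import Pool.Agent.H37.UM.KKt
import Pool.Agent.H37.UM.KKb

/-!
# Module KK: start values
-/

set_option autoImplicit false

namespace Pool.Agent.H37.UM.KK

open Finset

lemma HK_eq (hO : OPStmt) (hev : ∀ n, Even (dg n)) (n : ℕ) (hn : n < 256) : 2 * HK n = dg n := by
  induction n with
  | zero =>
    have : HK 0 = 0 := rfl
    simp [this, dg, dU]
  | succ n ih =>
    have h1 : HK (n + 1) = HK n + (2 * (n + 1) - opk (n + 1) - 1) / 2 := rfl
    have h2 := ih (by omega)
    have h5 := dg_succ n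
    have h6 := opk_eq hO (n + 1) (by omega) hn
    obtain ⟨c, hc⟩ := hev (n + 1)
    obtain ⟨d, hd⟩ := hev n
    rw [h1, h6]
    omega

lemma PF_eq (z fuel : ℕ) : ∀ a n : ℕ, n ≤ 2 ^ fuel →
    PF z (fuel + 1) a n = ∏ m ∈ Ioc a (a + n), Fz z m := by
  induction fuel with
  | zero =>
    intro a n hn
    have h : n = 0 ∨ n = 1 := by omega
    rcases h with rfl | rfl
    · have : PF z (0 + 1) a 0 = 1 := rfl
      rw [this]
      simp
    · have : PF z (0 + 1) a 1 = Fz z (a + 1) := rfl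
      rw [this]
      have h2 : Ioc a (a + 1) = {a + 1} := by
        ext x; simp only [Finset.mem_Ioc, Finset.mem_singleton]; omega
      rw [h2, Finset.prod_singleton]
  | succ f ih =>
    intro a n hn
    have hd : PF z (f + 1 + 1) a n = cond (Nat.ble n 1) (cond (Nat.ble n 0) 1 (Fz z (Nat.succ a)))
      (force (Nat.div n 2) fun h => force (Nat.add a h) fun a' => force (Nat.sub n h) fun n' =>
        Nat.mul (PF z (f + 1) a h) (PF z (f + 1) a' n')) := rfl
    rw [hd]
    cases hb : Nat.ble n 1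
    · have hn2 : 1 < n := by
        by_contra hle
        rw [Nat.ble_eq_true_of_le (by omega)] at hb
        exact Bool.noConfusion hb
      rw [cond_false, force_eq, force_eq, force_eq]
      have e1 : Nat.div n 2 = n / 2 := rfl
      have e2 : Nat.add a (n / 2) = a + n / 2 := rfl
      have e3 : Nat.sub n (n / 2) = n - n / 2 := rfl
      rw [e1, e2, e3]
      have hp : 2 ^ (f + 1) = 2 * 2 ^ f := by ring
      rw [hp] at hn
      rw [ih a (n / 2) (by omega), ih (a + n / 2) (n - n / 2) (by omega)]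
      have h2 : Ioc a (a + n) = Ioc a (a + n / 2) ∪ Ioc (a + n / 2) (a + n / 2 + (n - n / 2)) := by
        ext x; simp only [Finset.mem_Ioc, Finset.mem_union]; omega
      rw [h2, Finset.prod_union]
      · rfl
      · rw [Finset.disjoint_left]
        intro x hx
        simp only [Finset.mem_Ioc] at hx ⊢
        omega
    · have hn2 : n ≤ 1 := Nat.le_of_ble_eq_true hb
      rw [cond_true]
      have h : n = 0 ∨ n = 1 := by omega
      rcases h with rfl | rfl
      · have : Nat.ble 0 0 = true := rfl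
        rw [this]
        simp
      · have : Nat.ble 1 0 = false := rfl
        rw [this, cond_false]
        have h2 : Ioc a (a + 1) = {a + 1} := by
          ext x; simp only [Finset.mem_Ioc, Finset.mem_singleton]; omega
        rw [h2, Finset.prod_singleton]

lemma W0_eq (hO : OPStmt) (B Mx n : ℕ) (hB : 1 ≤ B) (hn : n < 256) : W0 B Mx n = Wn B Mx n := by
  have h1 : W0 B Mx n = Nat.land (PF (2 ^ B) (8 + 1) 0 n) (Nat.pred (Nat.pow (Nat.pow 2 B) Mx)) := rfl
  rw [h1, land_mod, PF_eq (2 ^ B) 8 0 n (by norm_num; omega), Wn, Tp, Polynomial.eval_prod,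
    Nat.zero_add]
  congr 1
  apply Finset.prod_congr rfl
  intro m hm
  rw [Finset.mem_Ioc] at hm
  exact (eval_Fp hO (2 ^ B) m (two_le_two_pow B hB) (by omega) (by omega)).symm

lemma run_sound2 (hO : OPStmt) (hU : UUStmt) (hT : TSUStmt) (B L0 Mx n0 lo hi : ℕ)
    (tab : List (ℕ × ℕ × ℕ × ℕ × ℕ)) (hB : 1 ≤ B) (hf : hi.factorial < 2 ^ (B - 1))
    (hlo : 63 ≤ lo) (hhi : hi < 250) (hn0 : n0 + 1 = lo) (hle : lo ≤ hi)
    (hes : ∀ N, ∀ e ∈ ents tab N, e.2.2 ≤ 1000 ∧ 0 < e.2.2 ∧ 0 < e.2.1)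
    (h : loop B L0 Mx lo tab (Nat.sub hi n0) n0 (HK n0) (W0 B Mx n0) = true) :
    ∀ N k, lo ≤ N → N ≤ hi → 48 ≤ k → 2 * k ≤ dg N →
      OKd (cond (Nat.blt N 142) (Nat.pow 10 23) 0) (ents tab N) k (df (T N) k).toNat := by
  intro N k h1 h2 h3 h4
  have hev : ∀ n, Even (dg n) := fun n => hU.2.2.2.2.2.2 0 n
  have hs : Nat.sub hi n0 = hi - n0 := rfl
  rw [W0_eq hO B Mx n0 hB (by omega), hs] at h
  have := loop_sound hO B L0 Mx lo tab hB hev (hi - n0) n0 (HK n0) (HK_eq hO hev n0 (by omega))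
    (by omega) h N (by omega) (by omega) h1
  obtain ⟨c, hc⟩ := hev N
  have hfN : N.factorial < 2 ^ (B - 1) := lt_of_le_of_lt (Nat.factorial_le h2) hf
  exact chkN_sound hO hT B L0 Mx N (dg N / 2) tab hB hfN (by omega) (by omega) this.1 (by omega)
    (hes N) this.2 k h3 h4

end Pool.Agent.H37.UM.KK
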