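import Pool.Agent.H37.UM.Defs

/-!
# Project UM (MP_a56223_co): the statements of the modules
-/

set_option autoImplicit false

namespace Pool.Agent.H37.UM

open PowerSeries Finset

/-! ## A. Algebra of the problem -/

def GENStmt : Prop :=
  (∀ a b, hr a b 0 = 1) ∧ (∀ a b n, b < a → 0 < n → hr a b n = 0) ∧
  (∀ a b n, 1 ≤ a → a ≤ b + 1 → hr a (b + 1) n =
    hr a b n + if b + 1 ≤ n then g (b + 1) * hr a (b + 1) (n - (b + 1)) else 0) ∧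
  (∀ a b n, 1 ≤ a → a ≤ b → hr a b n =
    hr (a + 1) b n + if a ≤ n then g a * hr a b (n - a) else 0) ∧
  (∀ n b, n ≤ b → hr 1 b n = h n) ∧ (∀ n b, n ≤ b → hr 2 b n = h2 n)

def RECStmt : Prop :=
  (∀ n, 1 ≤ n → P n = F n * P (n - 1) + Q n) ∧ (∀ n, T n = den n * g 1 ^ n) ∧
  (∀ j n, j ≤ n → U j n * den j = den n * g 1 ^ (n - j))

def R1Stmt : Prop :=
  ∀ (n : ℕ) (p : n.Partition), (p.parts.map fun i => (1 + Polynomial.X ^ i : Polynomial ℤ)).prod ∣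
    ∏ i ∈ Icc 1 n, (1 + Polynomial.X ^ i) ^ cc n i

def SYMPStmt : Prop := ∀ n, Sym (dg n) (P n)

def R2Stmt : Prop :=
  ∀ (n : ℕ) (f : Polynomial ℤ), 1 ≤ n → IsNum n f → ∀ k, coeff k (P n) = (-1) ^ k * f.coeff k

def R3Stmt : Prop := ∀ n : ℕ, 1 ≤ n → ∃ f : Polynomial ℤ, IsNum n f

/-! ## B. Symmetric unimodal polynomials, the blocks -/

def OPStmt : Prop :=
  (∀ m, 1 ≤ m → Odd (op m) ∧ 1 ≤ op m ∧ op m ≤ m ∧ m = 2 ^ padicValNat 2 m * op m) ∧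
  (∀ m, 1 ≤ m → op (2 * m) = op m) ∧ (∀ m, op (2 * m + 1) = 2 * m + 1)

def FFStmt : Prop :=
  (∀ m, 1 ≤ m → ∀ j, coeff j (F m) = if j < 2 * m ∧ j % (2 * op m) < op m then 1 else 0) ∧
  (∀ m, 1 ≤ m → F m * ((1 - X) * (1 + X ^ op m)) = 1 - X ^ (2 * m)) ∧
  (∀ m, 1 ≤ m → Sym (2 * m - op m - 1) (F m))

def UUStmt : Prop :=
  (∀ j n, Sym (dU j n) (U j n)) ∧ (∀ j n k, 0 ≤ coeff k (U j n)) ∧ (∀ j n, coeff 0 (U j n) = 1) ∧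
  (∀ N k, 3 ≤ N → coeff k (U (N - 3) N) ≤ (N : ℤ) ^ 3) ∧
  (∀ i j n, i ≤ j → j ≤ n → U j n * U i j = U i n) ∧
  (∀ i j n, i ≤ j → j ≤ n → dU j n + dU i j = dU i n) ∧ (∀ j n, Even (dU j n))

def SUMStmt : Prop :=
  (∀ D E f g, SU D f → SU E g → SU (D + E) (f * g)) ∧
  (∀ D E f g, Sym D f → Sym E g → Sym (D + E) (f * g)) ∧
  (∀ n, SU n (iv (n + 1))) ∧ (∀ D s f, SU D f → SU (D + 2 * s) (X ^ s * f)) ∧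
  (∀ D f g, SU D f → SU D g → SU D (f + g)) ∧ (∀ D f k, SU D f → 0 ≤ coeff k f)

def TB0Stmt : Prop := ∀ N, 12 ≤ N → N % 4 = 0 → SU (dU (N - 3) N) (U (N - 3) N)
def TB1Stmt : Prop := ∀ N, 5 ≤ N → N % 4 = 1 → SU (dU (N - 3) N) (U (N - 3) N)
def TB2Stmt : Prop := ∀ N, 10 ≤ N → N % 4 = 2 → SU (dU (N - 3) N) (U (N - 3) N)
def TB3Stmt : Prop := ∀ N, 7 ≤ N → N % 4 = 3 → SU (dU (N - 3) N) (U (N - 3) N)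

/-- all blocks of three -/
def TBStmt : Prop := ∀ N, 9 ≤ N → SU (dU (N - 3) N) (U (N - 3) N)

def TSUStmt : Prop := ∀ N, 7 ≤ N → SU (dg N) (T N)

def STRStmt : Prop :=
  ∀ t N, 1 ≤ t → 6 * t + 100 ≤ N → SU (dU (N - 6 * t) N) (U (N - 6 * t) N) ∧
    ∀ k, 2 * k ≤ dU (N - 6 * t) N → 1 ≤ df (U (N - 6 * t) N) k

def DUBStmt : Prop :=
  (∀ N, 6 ≤ N → 15 * N ≤ 2 * dU (N - 6) N + 51) ∧
  (∀ t N, 6 * t + 100 ≤ N → 6 * t * (5 * N + 13) ≤ 4 * dU (N - 6 * t) N + 5 * (6 * t) ^ 2) ∧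
  (∀ b N, b ≤ N → dU (N - b) N ≤ 2 * b * N)

/-! ## C. Lower bounds for `df (T N) k` -/

def STEPStmt : Prop :=
  ∀ (c D k : ℕ) (f v : ℤ⟦X⟧) (L : ℤ → ℝ), SU (2 * c) f → SU D v → 2 * k ≤ 2 * c + D →
    (∀ j : ℕ, j ≤ c → L j ≤ ((df f j : ℤ) : ℝ)) → (∀ j : ℤ, j < 0 → L j ≤ 0) →
    (∀ j : ℤ, L j + L (2 * c + 1 - j) ≤ 0) →
    ∑ i ∈ range (D + 1), ((coeff i v : ℤ) : ℝ) * L ((k : ℤ) - i) ≤ ((df (f * v) k : ℤ) : ℝ)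

def PBStmt : Prop :=
  ∀ (t N k : ℕ) (B r : ℝ), 1 ≤ t → 6 * t + 100 ≤ N → 1 ≤ B → 4 * B ≤ (dU (N - 6 * t) N : ℝ) →
    0 < r → r ≤ 1 → 2 * k ≤ dg N →
    r ^ (2 * B) / B ^ 2 * (r ^ k)⁻¹ * Te (N - 6 * t) r *
      (B ^ 2 - va (N - 6 * t) r - ((k : ℝ) - B - mu (N - 6 * t) r) ^ 2) ≤ ((df (T N) k : ℤ) : ℝ)

def CBStmt : Prop :=
  ∀ (t N k : ℕ) (B x : ℝ), 1 ≤ t → 6 * t + 100 ≤ N → 0 < B → B ≤ (dU (N - 6 * t) N : ℝ) + 2 →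
    2 * k ≤ dg N → x = (dg N : ℝ) + 1 - 2 * k →
    ((N - 6 * t).factorial : ℝ) * (x * (B ^ 2 - 12 * sg (N - 6 * t) - x ^ 2) / (0.385 * B ^ 3)) ≤
      ((df (T N) k : ℤ) : ℝ)

def LBAStmt : Prop :=
  ∀ N k s : ℕ, s = ((Icc 1 N).filter (fun m => k < 2 * op m - 1)).card → 3 ≤ s →
    ((s - 2 + k).choose k : ℤ) ≤ df (T N) k

/-! ## D. Moments -/

def MOAStmt : Prop :=
  (∀ (N : ℕ) (r : ℝ), Te N r = ∑ i ∈ range (dg N + 1), ((coeff i (T N) : ℤ) : ℝ) * r ^ i) ∧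
  (∀ (N : ℕ) (r : ℝ), 0 < r → 0 < Te N r) ∧ (∀ N : ℕ, Te N 1 = (N.factorial : ℝ)) ∧
  (∀ (N : ℕ) (r : ℝ), 0 < r → (N.factorial : ℝ) * r ^ ((dg N : ℝ) / 2) ≤ Te N r) ∧
  (∀ (b N : ℕ) (r : ℝ), b ≤ N → 0 < r → r < 1 → Te N r ≤ (1 / (1 - r)) ^ b * Te (N - b) r)

def MOBStmt : Prop :=
  (∀ N : ℕ, mu N 1 = (dg N : ℝ) / 2) ∧ (∀ (N : ℕ) (r : ℝ), 0 < r → 0 ≤ mu N r) ∧
  (∀ (N : ℕ) (r : ℝ), 0 < r → r ≤ 1 → mu N r ≤ (dg N : ℝ) / 2) ∧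
  (∀ (N : ℕ) (r : ℝ), 0 < r → r < 1 → mu N r ≤ N * r / (1 - r)) ∧
  (∀ (M N : ℕ) (r : ℝ), M ≤ N → 0 < r → mu M r ≤ mu N r) ∧
  (∀ N : ℕ, ContinuousOn (mu N) (Set.Ioi 0))

def VAStmt : Prop :=
  (∀ (N : ℕ) (r : ℝ), 0 < r → r < 1 → va N r ≤ N * r / (1 - r) ^ 2) ∧
  (∀ (N : ℕ) (r : ℝ), 0 < r → r ≤ 1 → va N r ≤ sg N) ∧ (∀ N : ℕ, va N 1 = sg N)

def TUStmt : Prop :=
  ∀ (N : ℕ) (r : ℝ), 0 < r → r ≤ 1 →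
    Te N r ≤ (N.factorial : ℝ) * r ^ ((dg N : ℝ) / 2) * Real.exp ((Real.log r) ^ 2 * sg N / 2)

def SGStmt : Prop :=
  (∀ N : ℕ, sg N ≤ 0.0643 * (N : ℝ) ^ 3 + 0.2 * (N : ℝ) ^ 2) ∧
  (∀ N : ℕ, ∑ m ∈ Icc 1 N, (op m : ℝ) ^ 2 ≤ 4 / 21 * (N : ℝ) ^ 3 + (N : ℝ) ^ 2)

/-! ## E. Majorants -/

def MAJStmt : Prop :=
  (∀ r f g A B, 0 < r → Maj r f A → Maj r g B → Maj r (f * g) (A * B)) ∧
  (∀ r f g A B, 0 < r → Maj r f A → Maj r g B → Maj r (f + g) (A + B)) ∧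
  (∀ r i, 0 < r → Maj r (w i) (1 + r ^ i)) ∧
  (∀ r i, 0 < r → r < 1 → 1 ≤ i → Maj r (g i) (1 / (1 - r ^ i))) ∧
  (∀ r m, 0 < r → Maj r (F m) (Fe m r)) ∧
  (∀ r f A k, 0 < r → Maj r f A → |((df f k : ℤ) : ℝ)| ≤ (1 + r) * A * (r ^ k)⁻¹)

def PNStmt : Prop := ∀ n : ℕ, (Fintype.card n.Partition : ℝ) ≤ Real.exp (2.5651 * √(n : ℝ))

def M1Stmt : Prop :=
  ∀ (N j k : ℕ) (r : ℝ), 3 ≤ N → N ≤ j + 2 → j ≤ N → 0 < r → r < 1 →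
    |((df (U j N * Q j) k : ℤ) : ℝ)| ≤ 2 * (r ^ k)⁻¹ * Te N r * Real.exp (-A1 N r)

def M2Stmt : Prop :=
  ∀ (N j k : ℕ) (r : ℝ), 3 ≤ N → N ≤ j + 2 → j ≤ N → 0 < r → r < 1 →
    |((df (U j N * Q j) k : ℤ) : ℝ)| ≤ (1 + r) * ((1 - r) ^ 2)⁻¹ * (r ^ k)⁻¹ *
      (1 - r ^ 2) ^ (-(N : ℝ) / 2) *
      Real.exp (2.5651 * √(N : ℝ) + (Real.log N / Real.log 2 + 1) * (r / (1 - r)))

/-- the weight of `m` parts `i` when the denominator has exponent `c` at `i` -/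
noncomputable def wt (r : ℝ) (i c m : ℕ) : ℝ :=
  if m ≤ c then (1 + r ^ i) ^ (c - m) else ((1 - r ^ i) ^ (m - c))⁻¹

def M3Stmt : Prop :=
  ∀ (N j k : ℕ) (r q : ℝ), j ≤ N → 0 < r → r < 1 → 0 < q →
    |((df (U j N * Q j) k : ℤ) : ℝ)| ≤ (1 + r) * (r ^ k)⁻¹ * (∏ m ∈ Ioc j N, Fe m r) * (q ^ j)⁻¹ *
      ((1 + r) ^ cc j 1 * ∏ i ∈ Icc 2 j, ∑ m ∈ range (j / i + 1), wt r i (cc j i) m * q ^ (i * m))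

def SSBStmt : Prop :=
  (∀ (N : ℕ) (r : ℝ), 1 ≤ N → 0 < r → r < 1 →
    SS N r ≤ (Real.log N / Real.log 2 + 1) * Real.pi ^ 2 / (8 * Real.log (1 / r))) ∧
  (∀ (N : ℕ) (r : ℝ), 1 ≤ N → 0 < r → r < 1 →
    SS N r ≤ N * (Real.log (2 / (Real.log (1 / r) * N)) + 1 + Real.log 2) +
      Real.log (1 / r) ^ 2 / 12 * (4 / 21 * (N : ℝ) ^ 3 + (N : ℝ) ^ 2)) ∧
  (∀ (N : ℕ) (r r' : ℝ), 0 < r → r ≤ r' → r' < 1 → SS N r ≤ SS N r') ∧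
  (∀ (N : ℕ) (r : ℝ), 0 < r → r < 1 → 0 ≤ SS N r)

/-! ## F. The range `N ≥ 250`, `k` not small -/

def IP1Stmt : Prop :=
  ∀ (N : ℕ) (r : ℝ), 250 ≤ N → 0 < r → r ≤ 1 - 0.6 / √(N : ℝ) →
    ((N < 1300 ∧ 301 ≤ N * r / (1 - r) + B1 N r) ∨
      (1300 ≤ N ∧ (N : ℝ) / 4 ≤ N * r / (1 - r) + B1 N r)) →
    Real.log (3 * (N : ℝ) ^ 2) + 6 * Real.log (1 / (1 - r)) + 2 * B1 N r * Real.log (1 / r) +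
      2 * Real.log (B1 N r) ≤ A1 N r

def IP2Stmt : Prop :=
  ∀ (N : ℕ) (r B : ℝ), 250 ≤ N → 1 - 0.6 / √(N : ℝ) ≤ r → r ≤ 1 - 2 / N → B = min (B1 N r) (B0 N) →
    Real.log (3 * (N : ℝ) ^ 2) + b2 N * Real.log (1 / (1 - r)) + 2 * B * Real.log (1 / r) +
      2 * Real.log B ≤ A1 N r

def IZStmt : Prop :=
  ∀ (N : ℕ) (s : ℝ), 250 ≤ N → s = Real.log (1 / (1 - 2 / N)) →
    Real.log (3 * (N : ℝ) ^ 2) + b2 N * Real.log N +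
      s ^ 2 * (0.0643 * (N : ℝ) ^ 3 + 0.2 * (N : ℝ) ^ 2) / 2 + 2 * B0 N * s +
      2 * Real.log (B0 N) ≤ A1 N (1 - 2 / N)

def ICStmt : Prop :=
  ∀ (N : ℕ) (s : ℝ), 250 ≤ N → s = Real.log (1 / (1 - 2 / N)) →
    Real.log (3 * (N : ℝ) ^ 2) + b2 N * Real.log N +
      s ^ 2 * (0.0643 * (N : ℝ) ^ 3 + 0.2 * (N : ℝ) ^ 2) / 2 +
      Real.log (200 * b2 N * N) ≤ A1 N (1 - 2 / N)

def P1XStmt : Prop :=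
  ∀ (N k : ℕ) (r : ℝ), 250 ≤ N → 2 * k ≤ dg N → ((N < 1300 ∧ 300 < k) ∨ (1300 ≤ N ∧ N < 4 * k)) →
    r = 1 - 0.6 / √(N : ℝ) → (k : ℝ) ≤ B1 N r + mu (N - 6) r → ERR N k

def P2XStmt : Prop :=
  ∀ (N k : ℕ) (r : ℝ), 250 ≤ N → 2 * k ≤ dg N → r = 1 - 0.6 / √(N : ℝ) →
    B1 N r + mu (N - 6) r ≤ (k : ℝ) → (k : ℝ) ≤ B0 N + mu (N - b2 N) (1 - 2 / N) → ERR N k

def ZXStmt : Prop :=
  ∀ (N k : ℕ), 250 ≤ N → 2 * k ≤ dg N → B0 N + mu (N - b2 N) (1 - 2 / N) ≤ (k : ℝ) →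
    (k : ℝ) ≤ B0 N + (dg (N - b2 N) : ℝ) / 2 → ERR N k

def CXStmt : Prop :=
  ∀ (N k : ℕ), 250 ≤ N → 2 * k ≤ dg N → B0 N + (dg (N - b2 N) : ℝ) / 2 ≤ (k : ℝ) → ERR N k

/-- the four regimes together -/
def BStmt : Prop :=
  ∀ N k : ℕ, 250 ≤ N → 2 * k ≤ dg N → ((N < 1300 ∧ 300 < k) ∨ (1300 ≤ N ∧ N < 4 * k)) → ERR N k

/-! ## G. The range `N ≥ 1300`, `1.8 √N < k ≤ N / 4` -/

def CNTStmt : Prop :=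
  ∀ (N k M : ℕ), 1 ≤ k → 4 * k ≤ N → M = (k + 1) / 2 →
    (N : ℝ) - (((M : ℝ) + 1) / 2 * (Real.log (N / M) / Real.log 2 + 1) + M +
      Real.log N / Real.log 2 / 2 + 1) ≤
      (((Icc 1 N).filter (fun m => k < 2 * op m - 1)).card : ℝ)

def INAStmt : Prop :=
  ∀ (N k M : ℕ) (s r : ℝ), 1300 ≤ N → 70 < k → 81 * N < 25 * k ^ 2 → 4 * k ≤ N → M = (k + 1) / 2 →
    r = √((k : ℝ) / (N + k)) →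
    (N : ℝ) - (((M : ℝ) + 1) / 2 * (Real.log (N / M) / Real.log 2 + 1) + M +
      Real.log N / Real.log 2 / 2 + 1) ≤ s →
    Real.log (10 * (N : ℝ) ^ 2) + 2.5651 * √(N : ℝ) + N / 2 * Real.log (1 + k / N) +
      k / 2 * Real.log (1 + N / k) + (Real.log N / Real.log 2 + 1) * (r / (1 - r)) +
      Real.log (k.factorial : ℝ) ≤ k * Real.log (s - 1)

def APXStmt : Prop :=
  ∀ N k : ℕ, 1300 ≤ N → 70 < k → 81 * N < 25 * k ^ 2 → 4 * k ≤ N → ERR N k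

/-! ## H. The range `n ≥ 1300`, `k ≤ max (70, 1.8 √n)` -/

def IVRStmt : Prop :=
  ∀ n m V : ℕ, 1000 ≤ n → 1 ≤ m → 1 ≤ V → V ≤ n →
    (sk (m - 1) n : ℝ) * V * (1 - max 0 ((m : ℝ) - 1.4) * V / (2 * n)) ≤
      (1 + 0.85 * (V : ℝ) ^ 2 / n) * sk m n

def IVTStmt : Prop :=
  ∀ n j m : ℕ, 1300 ≤ n → j ≤ n → n ≤ j + Nat.log 2 n + 3 → 1 ≤ m →
    (m ≤ 3 → √(n : ℝ) * sk (m - 1) j ≤ 2 * sk m j) ∧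
    (m ≤ 24 → √(n : ℝ) * sk (m - 1) j ≤ 2.7 * sk m j) ∧
    (m ≤ 70 ∨ 25 * m ^ 2 ≤ 81 * n → √(n : ℝ) * sk (m - 1) j ≤ 4.8 * sk m j)

/-- the generating function `∏ (1 + (t y) ^ i) ^ l` over `2 ≤ i ≤ k` -/
noncomputable def G0 (l k : ℕ) (t : ℝ) : PowerSeries ℝ :=
  ∏ i ∈ Icc 2 k, (1 + PowerSeries.C (t ^ i) * X ^ i) ^ l

/-- the generating function `∏ (1 + (t y) ^ i) ^ l / (1 - t ^ (i - 1) y ^ i)` over `2 ≤ i ≤ k` -/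
noncomputable def G1 (l k : ℕ) (t : ℝ) : PowerSeries ℝ :=
  ∏ i ∈ Icc 2 k, ((1 + PowerSeries.C (t ^ i) * X ^ i) ^ l *
    (1 - PowerSeries.C (t ^ (i - 1)) * X ^ i)⁻¹)

noncomputable def EE (L k : ℕ) (t : ℝ) : ℝ := ∑ j ∈ Icc 2 k, coeff j (G1 (L - 1) k t)

noncomputable def YY (L k : ℕ) (t : ℝ) : ℝ :=
  ((1 - t) ^ (L + 2))⁻¹ * ∑ j ∈ range (k + 1), ((L + 2).choose (k - j + 1) : ℝ) * t ^ (k - j) *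
    (coeff j (G0 (L - 1) k t) + t * (coeff j (G1 (L - 1) k t) - coeff j (G0 (L - 1) k t)))

def IVEStmt : Prop :=
  ∀ (n k L : ℕ) (t : ℝ), 1300 ≤ n → L = Nat.log 2 n + 1 → 3 ≤ k → 0 < t → t < 1 →
    (∀ j m, n ≤ j + (L + 2) → j ≤ n → 1 ≤ m → m ≤ k → (sk (m - 1) j : ℝ) ≤ t * sk m j) →
    |((df (P n) k : ℤ) : ℝ) - sk k (n - (L + 2))| ≤ (EE L k t + YY L k t) * sk k (n - (L + 2))

def IVNStmt : Prop :=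
  ∀ (n k L : ℕ) (t : ℝ), 1300 ≤ n → L = Nat.log 2 n + 1 →
    ((k = 3 ∧ t = 2 / √(n : ℝ)) ∨ (4 ≤ k ∧ k ≤ 24 ∧ t = 2.7 / √(n : ℝ)) ∨
      (25 ≤ k ∧ t = 4.8 / √(n : ℝ))) →
    EE L k t + YY L k t ≤ 0.8

def IVUStmt : Prop :=
  ∀ n k : ℕ, 1300 ≤ n → 1 ≤ k → (k ≤ 70 ∨ 25 * k ^ 2 ≤ 81 * n) →
    4 * |df (T n) k| ≤ (sk k (n - (Nat.log 2 n + 3)) : ℤ)

def IV12Stmt : Prop := ∀ n : ℕ, 1300 ≤ n → 0 ≤ df (XX n) 1 ∧ 0 ≤ df (XX n) 2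

def IVFStmt : Prop :=
  ∀ n k : ℕ, 1300 ≤ n → 1 ≤ k → (k ≤ 70 ∨ 25 * k ^ 2 ≤ 81 * n) → 0 ≤ df (XX n) k

/-! ## I. Kernel computations -/

/-- packing: the value at `2 ^ B` modulo `2 ^ (B K)` -/
noncomputable def pk (B K : ℕ) (f : ℤ⟦X⟧) : ZMod (2 ^ (B * K)) :=
  ∑ k ∈ range K, ((coeff k f : ℤ) : ZMod (2 ^ (B * K))) * (2 ^ B) ^ k

def PACKStmt : Prop :=
  (∀ B K f g, pk B K (f * g) = pk B K f * pk B K g) ∧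
  (∀ B K f g, pk B K (f + g) = pk B K f + pk B K g) ∧ (∀ B K f, pk B K (-f) = -pk B K f) ∧
  (∀ B K, 1 ≤ K → pk B K 1 = 1) ∧ (∀ B K i, pk B K (X ^ i) = (2 ^ B) ^ i) ∧
  (∀ B K f k, (∀ k, k < K → 0 ≤ coeff k f ∧ coeff k f < 2 ^ B) → k < K →
    coeff k f = (((pk B K f).val / 2 ^ (B * k) % 2 ^ B : ℕ) : ℤ))

def APBStmt : Prop :=
  ∀ n k : ℕ, 1 ≤ n → |coeff k (P n)| ≤
    (2 ^ (∑ i ∈ Icc 1 (min n k), cc n i) * Fintype.card n.Partition * (n + k - 1).choose k : ℕ)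

def FKStmt : Prop :=
  (∀ n, 1 ≤ n → n ≤ 62 → EU n) ∧
  (∀ n k, 60 ≤ n → n ≤ 62 → 2 ≤ k → 2 * k ≤ dg n → 0 ≤ df (XX n) k)

def IIIStmt : Prop :=
  (∀ n k, 60 ≤ n → n < 1300 → 2 ≤ k → k ≤ 47 → 2 * k ≤ dg n → 0 ≤ df (XX n) k) ∧
  (∀ n, 60 ≤ n → n < 1300 → coeff 0 (XX n) ≤ coeff 2 (XX n)) ∧
  (∀ n, 139 ≤ n → n < 1300 → 0 ≤ df (XX n) 1) ∧
  (∀ n : ℕ, 60 ≤ n → n < 139 → -(10 ^ 23) ≤ ((n : ℤ) + 3) ^ 4 * df (XX n) 1)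

/-- the tables of the majorants: `(Na, Nb, 1000 r, 1000 q, G)`, see `Tab.lean` -/
def KTabStmt (tab : List (ℕ × ℕ × ℕ × ℕ × ℕ)) : Prop :=
  ∀ e ∈ tab, ∀ j : ℕ, e.1 ≤ j + 2 → j ≤ e.2.1 →
    (1 + (e.2.2.1 : ℝ) / 1000) ^ cc j 1 *
      ∏ i ∈ Icc 2 j, ∑ m ∈ range (j / i + 1),
        wt ((e.2.2.1 : ℝ) / 1000) i (cc j i) m * ((e.2.2.2.1 : ℝ) / 1000) ^ (i * m) ≤
      (e.2.2.2.2 : ℝ) / 65536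

def LTabStmt (tab : List (ℕ × ℕ × ℕ × ℕ × ℕ)) : Prop :=
  ∀ e ∈ tab, ∀ j : ℕ, j ≤ e.2.1 →
    (∏ i ∈ Icc 1 j, (1 + ((e.2.2.1 : ℝ) / 1000) ^ i) ^ cc j i) *
      ∏ i ∈ Icc 2 j, (1 - ((e.2.2.2.1 : ℝ) / 1000) ^ i / (1 - ((e.2.2.1 : ℝ) / 1000) ^ i))⁻¹ ≤
      (e.2.2.2.2 : ℝ)

def M4Stmt : Prop :=
  ∀ (N j k : ℕ) (r q : ℝ), j ≤ N → 0 < r → r < 1 → 0 < q → q ^ 2 < 1 - r ^ 2 →
    |((df (U j N * Q j) k : ℤ) : ℝ)| ≤ (1 + r) * (r ^ k)⁻¹ * ((1 - r)⁻¹) ^ (N - j) * (q ^ j)⁻¹ *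
      ((∏ i ∈ Icc 1 j, (1 + r ^ i) ^ cc j i) * ∏ i ∈ Icc 2 j, (1 - q ^ i / (1 - r ^ i))⁻¹)

def KKStmt : Prop :=
  ∀ N k : ℕ, 63 ≤ N → N < 250 → 48 ≤ k → 2 * k ≤ dg N →
    ERR N k ∧ (N < 142 → 10 ^ 23 ≤ df (T N) k)

def LL1Stmt : Prop := ∀ N k : ℕ, 400 ≤ N → N < 1300 → 48 ≤ k → k ≤ 300 → ERR N k

def LL2Stmt : Prop := ∀ N k : ℕ, 250 ≤ N → N < 400 → 48 ≤ k → k ≤ 300 → ERR N k

/-! ## J. Assembly -/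

/-- the induction -/
def INDStmt : Prop :=
  ∀ n, 60 ≤ n → (∀ k, 2 ≤ k → 2 * k ≤ dg n → 0 ≤ df (XX n) k) ∧ coeff 0 (XX n) ≤ coeff 2 (XX n)

def EUStmt : Prop := ∀ n, 1 ≤ n → EU n

end Pool.Agent.H37.UM
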